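import Mathlib
import Pool.Agent.R38.DB.Low

/-! Row-wise form of the lower bound for the number of primitive vectors in the kernel of an integer
matrix (adapted from `Pool/Agent/H548/BK/Prim.lean`). -/

set_option autoImplicit false

namespace Pool.Agent.T6.H5.TW

open Finset Matrix
open Pool.Agent.H548.WM (ht bx mem_bx ht_le le_ht le_ht' exists_ht card_bx_le ht_pos Rep)
open Pool.Agent.H548.TC (Prim prim_ne prim_neg rep_or rep_neg sum_tail)
open Pool.Agent.H548.BK (KB mem_KB KP mem_KP KP_mono cover super exists_minor many_ker)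

/-- Comparison of all vectors and the primitive vectors. -/
theorem KB_le_KP {k N : ℕ} (hk : k + 2 ≤ N) : ∃ (C : ℝ) (E M : ℕ), 0 < C ∧ 1 ≤ E ∧
    ∀ (A : Matrix (Fin k) (Fin N) ℤ), LinearIndependent ℤ A.row → ∀ W R : ℕ, 1 ≤ W →
      (∀ i j, |A i j| ≤ (W : ℤ)) → E * W ^ M ≤ R →
      ((KB A R).card : ℝ) ≤ C * (KP A R).card := by
  set D : ℕ := 144 * N ^ 2 with hD
  have hN1 : 1 ≤ N := by omega
  have hN0 : (0 : ℝ) < N := by exact_mod_cast hN1
  have hN1' : (1 : ℝ) ≤ N := by exact_mod_cast hN1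
  have hD1 : 1 ≤ D := by
    rw [hD]
    exact Nat.one_le_iff_ne_zero.2 (by positivity)
  have hD0 : (0 : ℝ) < D := by exact_mod_cast hD1
  set E : ℕ := 8 * (3 * k.factorial) ^ N * (3 * N) ^ k with hE
  have hE1 : 1 ≤ E := by
    rw [hE]
    exact Nat.one_le_iff_ne_zero.2 (by positivity)
  refine ⟨4 * D, E, k * N + k, by positivity, hE1, ?_⟩
  intro A hA W R hW hAW hR
  -- the maximal minor
  obtain ⟨J0, hJ0⟩ := exists_minor hA
  obtain ⟨J, -, hmax⟩ := Finset.exists_max_image (univ : Finset (Fin k → Fin N))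
    (fun J => (A.submatrix id J).det.natAbs) ⟨J0, mem_univ _⟩
  have hmax' : ∀ J', (A.submatrix id J').det.natAbs ≤ (A.submatrix id J).det.natAbs :=
    fun J' => hmax J' (mem_univ _)
  have hΔ0 : (A.submatrix id J).det ≠ 0 := by
    intro h
    have := hmax' J0
    rw [h] at this
    have h2 := Int.natAbs_pos.2 hJ0
    simp at this
    omega
  set Δ := (A.submatrix id J).det.natAbs with hΔ
  have hΔ1 : 1 ≤ Δ := Int.natAbs_pos.2 hΔ0
  have hΔW : Δ ≤ k.factorial * W ^ k := by
    have h1 := Matrix.det_le (A := A.submatrix id J) (abv := AbsoluteValue.abs) (x := (W : ℤ))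
      (fun i j => hAW _ _)
    rw [Fintype.card_fin, nsmul_eq_mul] at h1
    have h2 : |(A.submatrix id J).det| ≤ (k.factorial : ℤ) * (W : ℤ) ^ k := h1
    rw [Int.abs_eq_natAbs] at h2
    exact_mod_cast h2
  have hR1 : 1 ≤ R := by
    refine le_trans ?_ hR
    exact Nat.one_le_iff_ne_zero.2 (by positivity)
  have hR' : (1 : ℝ) ≤ R := by exact_mod_cast hR1
  have hR0 : (0 : ℝ) < R := by linarith
  have hW' : (1 : ℝ) ≤ W := by exact_mod_cast hW
  have hW0 : (0 : ℝ) < W := by linarith
  set n := ((KB A R).card : ℝ) with hn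
  set P := ((KP A R).card : ℝ) with hP
  have hpig := many_ker hN1 A hR1 hW hAW
  rw [← hn] at hpig
  have hcov := cover (by omega) A R
  have hsplit := Finset.sum_filter_add_sum_filter_not (Finset.Icc 1 R) (fun d => D < d)
    (fun d => ((KP A (R / d)).card : ℝ))
  have hsmall : ∑ d ∈ (Finset.Icc 1 R).filter (fun d => ¬ D < d), ((KP A (R / d)).card : ℝ) ≤
      D * P := by
    calc ∑ d ∈ (Finset.Icc 1 R).filter (fun d => ¬ D < d), ((KP A (R / d)).card : ℝ)
        ≤ ∑ d ∈ (Finset.Icc 1 R).filter (fun d => ¬ D < d), P := by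
          refine Finset.sum_le_sum fun d _ => ?_
          rw [hP]
          exact_mod_cast Finset.card_le_card (KP_mono (Nat.div_le_self R d))
      _ = ((Finset.Icc 1 R).filter (fun d => ¬ D < d)).card * P := by
          rw [Finset.sum_const, nsmul_eq_mul]
      _ ≤ D * P := by
          have h1 : (Finset.Icc 1 R).filter (fun d => ¬ D < d) ⊆ Finset.Icc 1 D := by
            intro d hd
            rw [mem_filter, mem_Icc] at hd
            rw [mem_Icc]
            omega
          have h2 := Finset.card_le_card h1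
          rw [Nat.card_Icc, Nat.add_sub_cancel] at h2
          have h3 : (((Finset.Icc 1 R).filter (fun d => ¬ D < d)).card : ℝ) ≤ D := by
            exact_mod_cast h2
          gcongr
  have hlarge : ∑ d ∈ (Finset.Icc 1 R).filter (fun d => D < d), ((KP A (R / d)).card : ℝ) ≤
      R * (3 * Δ) ^ N + 36 * (N : ℝ) ^ 2 * n * (1 / D) := by
    have h1 : ∀ d ∈ (Finset.Icc 1 R).filter (fun d => D < d), ((KP A (R / d)).card : ℝ) ≤
        (3 * (Δ : ℝ)) ^ N + 36 * (N : ℝ) ^ 2 * n * (1 / (d : ℝ) ^ 2) := by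
      intro d hd
      rw [mem_filter, mem_Icc] at hd
      have hd1 : (1 : ℝ) ≤ d := by exact_mod_cast hd.1.1
      have hd0 : (0 : ℝ) < d := by linarith
      have hn0 : 0 ≤ n := by rw [hn]; positivity
      rcases le_or_gt Δ (R / d) with h | h
      · set m := (d - 1) / (3 * N) with hm
        have hmd : (3 * N * m + 1) * (R / d) ≤ R := by
          have e1 : 3 * N * m ≤ d - 1 := Nat.mul_div_le _ _
          calc (3 * N * m + 1) * (R / d) ≤ d * (R / d) := by
                apply Nat.mul_le_mul_right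
                omega
            _ ≤ R := Nat.mul_div_le R d
        have h2 := super A J hΔ0 hmax' (R / d) m R h hmd
        have h3 : d ≤ 6 * N * m := by
          have e1 : d - 1 < 3 * N * (m + 1) := Nat.lt_mul_div_succ _ (by positivity)
          have e2 : 144 * N ^ 2 < d := hd.2
          have e3 : 144 * N ≤ 144 * N ^ 2 := by nlinarith
          have e4 : 3 * N * (m + 1) = 3 * N * m + 3 * N := by ring
          have e5 : 6 * N * m = 2 * (3 * N * m) := by ring
          omega
        have h3' : (d : ℝ) ≤ 6 * N * m := by exact_mod_cast h3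
        have h4 : ((KP A (R / d)).card : ℝ) ≤ ((KB A (R / d)).card : ℝ) := by
          have : KP A (R / d) ⊆ KB A (R / d) := by
            intro z hz
            rw [mem_KP] at hz
            rw [mem_KB]
            exact ⟨hz.1, hz.2.1⟩
          exact_mod_cast card_le_card this
        have hm1 : 1 ≤ m := by
          rcases Nat.eq_zero_or_pos m with h0 | h0
          · exfalso
            have h3'' : d ≤ 0 := by
              calc d ≤ 6 * N * m := h3
                _ = 0 := by rw [h0, Nat.mul_zero]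
            have := hd.1.1
            omega
          · exact h0
        have hm1' : (1 : ℝ) ≤ m := by exact_mod_cast hm1
        have h5 : ((KB A (R / d)).card : ℝ) * (m : ℝ) ^ 2 ≤ n := by
          have e1 : (m : ℝ) ^ 2 ≤ (m : ℝ) ^ (N - k) := pow_le_pow_right₀ hm1' (by omega)
          have e2 : ((KB A (R / d)).card : ℝ) * (m : ℝ) ^ (N - k) ≤ n := by
            rw [hn]
            exact_mod_cast h2
          calc ((KB A (R / d)).card : ℝ) * (m : ℝ) ^ 2 ≤
              ((KB A (R / d)).card : ℝ) * (m : ℝ) ^ (N - k) := by gcongr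
            _ ≤ n := e2
        have h6 : ((KB A (R / d)).card : ℝ) ≤ 36 * (N : ℝ) ^ 2 * n * (1 / (d : ℝ) ^ 2) := by
          rw [mul_one_div, le_div_iff₀ (by positivity)]
          calc ((KB A (R / d)).card : ℝ) * (d : ℝ) ^ 2 ≤
              ((KB A (R / d)).card : ℝ) * (6 * N * m) ^ 2 := by gcongr
            _ = 36 * (N : ℝ) ^ 2 * (((KB A (R / d)).card : ℝ) * (m : ℝ) ^ 2) := by ring
            _ ≤ 36 * (N : ℝ) ^ 2 * n := by gcongr
        have h7 : (0 : ℝ) ≤ (3 * (Δ : ℝ)) ^ N := by positivity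
        linarith
      · have h2 : ((KP A (R / d)).card : ℝ) ≤ ((bx N Δ).card : ℝ) := by
          have : KP A (R / d) ⊆ bx N Δ := by
            intro z hz
            rw [mem_KP] at hz
            rw [mem_bx]
            omega
          exact_mod_cast card_le_card this
        have h3 := card_bx_le N hΔ1
        have h4 : (0 : ℝ) ≤ 36 * (N : ℝ) ^ 2 * n * (1 / (d : ℝ) ^ 2) := by positivity
        linarith
    calc ∑ d ∈ (Finset.Icc 1 R).filter (fun d => D < d), ((KP A (R / d)).card : ℝ)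
        ≤ ∑ d ∈ (Finset.Icc 1 R).filter (fun d => D < d),
            ((3 * (Δ : ℝ)) ^ N + 36 * (N : ℝ) ^ 2 * n * (1 / (d : ℝ) ^ 2)) :=
          Finset.sum_le_sum h1
      _ = ((Finset.Icc 1 R).filter (fun d => D < d)).card * (3 * (Δ : ℝ)) ^ N +
            36 * (N : ℝ) ^ 2 * n *
              ∑ d ∈ (Finset.Icc 1 R).filter (fun d => D < d), (1 / (d : ℝ) ^ 2) := by
          rw [Finset.sum_add_distrib, Finset.sum_const, ← Finset.mul_sum, nsmul_eq_mul]
      _ ≤ _ := by
          have h2 : (((Finset.Icc 1 R).filter (fun d => D < d)).card : ℝ) ≤ R := by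
            have := Finset.card_le_card (Finset.filter_subset (fun d => D < d) (Finset.Icc 1 R))
            rw [Nat.card_Icc, Nat.add_sub_cancel] at this
            exact_mod_cast this
          have h3 := sum_tail D R hD1
          gcongr
  -- the error terms
  have hDe : 36 * (N : ℝ) ^ 2 * n * (1 / D) = n / 4 := by
    have : ((D : ℕ) : ℝ) = 144 * (N : ℝ) ^ 2 := by
      rw [hD]
      push_cast
      ring
    rw [this]
    field_simp
    ring
  have hpN : (R : ℝ) ^ N = (R : ℝ) ^ (N - k) * (R : ℝ) ^ k := by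
    rw [← pow_add]
    congr 1
    omega
  have hlow : (R : ℝ) ^ (N - k) ≤ (3 * N * W) ^ k * n := by
    rw [hpN] at hpig
    have h1 : (R : ℝ) ^ (N - k) * (R : ℝ) ^ k ≤ ((3 * N * W) ^ k * n) * (R : ℝ) ^ k := by
      calc (R : ℝ) ^ (N - k) * (R : ℝ) ^ k ≤ (3 * N * W * R) ^ k * n := hpig
        _ = _ := by rw [mul_pow]; ring
    exact le_of_mul_le_mul_right h1 (by positivity)
  have herr : 8 * (R * (3 * (Δ : ℝ)) ^ N) ≤ 2 * n := by
    have h1 : ((E : ℕ) : ℝ) * (W : ℝ) ^ (k * N + k) ≤ R := by exact_mod_cast hR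
    have h2 : (3 * (Δ : ℝ)) ^ N ≤ (3 * k.factorial) ^ N * (W : ℝ) ^ (k * N) := by
      have : (Δ : ℝ) ≤ k.factorial * (W : ℝ) ^ k := by exact_mod_cast hΔW
      calc (3 * (Δ : ℝ)) ^ N ≤ (3 * (k.factorial * (W : ℝ) ^ k)) ^ N := by gcongr
        _ = _ := by
          rw [← mul_assoc, mul_pow (3 * (k.factorial : ℝ)), ← pow_mul]
    have h3 : 8 * (3 * (Δ : ℝ)) ^ N * (3 * N * W) ^ k ≤ R := by
      calc 8 * (3 * (Δ : ℝ)) ^ N * (3 * N * W) ^ k ≤
          8 * ((3 * k.factorial) ^ N * (W : ℝ) ^ (k * N)) * (3 * N * W) ^ k := by gcongr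
        _ = ((E : ℕ) : ℝ) * (W : ℝ) ^ (k * N + k) := by
            rw [hE, mul_pow (3 * (N : ℝ)), pow_add]
            push_cast
            ring
        _ ≤ R := h1
    have h4 : (R : ℝ) * R ≤ (3 * N * W) ^ k * n := by
      refine le_trans ?_ hlow
      calc (R : ℝ) * R = (R : ℝ) ^ 2 := by ring
        _ ≤ (R : ℝ) ^ (N - k) := pow_le_pow_right₀ hR' (by omega)
    have h5 : (0 : ℝ) < (3 * N * W) ^ k := by positivity
    have h6 : (8 * (R * (3 * (Δ : ℝ)) ^ N)) * (3 * N * W) ^ k ≤ n * (3 * N * W) ^ k := by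
      calc (8 * (R * (3 * (Δ : ℝ)) ^ N)) * (3 * N * W) ^ k =
          R * (8 * (3 * (Δ : ℝ)) ^ N * (3 * N * W) ^ k) := by ring
        _ ≤ R * R := by gcongr
        _ ≤ (3 * N * W) ^ k * n := h4
        _ = _ := by ring
    have h7 := le_of_mul_le_mul_right h6 h5
    have hn0 : 0 ≤ n := by rw [hn]; positivity
    linarith
  have hone : (1 : ℝ) ≤ R * (3 * (Δ : ℝ)) ^ N := by
    have : (1 : ℝ) ≤ (3 * (Δ : ℝ)) ^ N := by
      apply one_le_pow₀
      have : (1 : ℝ) ≤ Δ := by exact_mod_cast hΔ1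
      linarith
    nlinarith
  have hfin : n ≤ 4 * D * P := by
    rw [hDe] at hlarge
    have : n ≤ 1 + (R * (3 * (Δ : ℝ)) ^ N + n / 4 + D * P) := by linarith
    have hn0 : 0 ≤ n := by rw [hn]; positivity
    have h9 : R * (3 * (Δ : ℝ)) ^ N ≤ n / 4 := by linarith
    have h10 : 2 * (R * (3 * (Δ : ℝ)) ^ N) ≤ n / 2 := by linarith
    linarith
  exact hfin

end Pool.Agent.T6.H5.TW
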