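import Mathlib
import Pool.Agent.T6.H5.TW.A

/-! Row-wise lower bounds for the number of vectors in the kernel of an integer matrix. -/

set_option autoImplicit false

namespace Pool.Agent.T6.H5.TW

open Finset Matrix
open Pool.Agent.H548.WM (ht bx mem_bx ht_le le_ht le_ht' exists_ht card_bx_le ht_pos Rep)
open Pool.Agent.H548.TC (Prim prim_ne prim_neg rep_or rep_neg sum_tail)
open Pool.Agent.H548.TL (evz evz_map evz_int deg_evz)
open Pool.Agent.H548.BK (KB mem_KB KP mem_KP KP_mono cover super exists_minor few_ker KP_rep)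

/-- Pigeonhole. -/
theorem many_ker' {k N : ℕ} (hN : 1 ≤ N) (A : Matrix (Fin k) (Fin N) ℤ) {Z : ℕ} {W : Fin k → ℕ}
    (hZ : 1 ≤ Z) (hW : ∀ i, 1 ≤ W i) (hA : ∀ i j, |A i j| ≤ (W i : ℤ)) :
    (Z : ℝ) ^ N ≤ (∏ i, (3 * N * (W i : ℝ) * Z)) * (KB A Z).card := by
  classical
  set D : Finset (Fin N → ℤ) := Fintype.piFinset fun _ => Finset.Icc (0 : ℤ) Z with hD
  have hDc : D.card = (Z + 1) ^ N := by
    rw [hD, Fintype.card_piFinset]
    simp only [Int.card_Icc, prod_const, card_univ, Fintype.card_fin]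
    congr 1
  set V : Finset (Fin k → ℤ) := Fintype.piFinset fun l =>
    Finset.Icc (-(N * W l * Z : ℕ) : ℤ) (N * W l * Z : ℕ) with hV
  have hVc : V.card = ∏ l, (2 * (N * W l * Z) + 1) := by
    rw [hV, Fintype.card_piFinset]
    refine Finset.prod_congr rfl fun l _ => ?_
    rw [Int.card_Icc]
    have h1 : (((N * W l * Z : ℕ) : ℤ) + 1 - -((N * W l * Z : ℕ) : ℤ)) =
      ((2 * (N * W l * Z) + 1 : ℕ) : ℤ) := by
      push_cast; ring
    rw [h1, Int.toNat_natCast]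
  have hmaps : ∀ z ∈ D, A *ᵥ z ∈ V := by
    intro z hz
    rw [hD, Fintype.mem_piFinset] at hz
    have hzi : ∀ i, |z i| ≤ (Z : ℤ) := fun i => by
      have := mem_Icc.1 (hz i)
      rw [abs_of_nonneg this.1]
      exact this.2
    rw [hV, Fintype.mem_piFinset]
    intro l
    rw [mem_Icc, ← abs_le]
    have e0 : (A *ᵥ z) l = ∑ i, A l i * z i := rfl
    rw [e0]
    calc |∑ i, A l i * z i| ≤ ∑ i, |A l i * z i| := Finset.abs_sum_le_sum_abs _ _
      _ ≤ ∑ i : Fin N, (W l : ℤ) * Z := by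
          refine Finset.sum_le_sum fun i _ => ?_
          rw [abs_mul]
          exact mul_le_mul (hA l i) (hzi i) (abs_nonneg _) (by positivity)
      _ = ((N * W l * Z : ℕ) : ℤ) := by
          rw [Finset.sum_const, card_univ, Fintype.card_fin]
          push_cast
          rw [nsmul_eq_mul]
          ring
  have hVne : V.Nonempty := ⟨A *ᵥ 0, hmaps 0 (by
    rw [hD, Fintype.mem_piFinset]
    intro i
    simp)⟩
  obtain ⟨v, hv, hmax⟩ := Finset.exists_max_image V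
    (fun v => (D.filter fun z => A *ᵥ z = v).card) hVne
  have hle := Finset.card_le_mul_card_image_of_maps_to hmaps
    (D.filter fun z => A *ᵥ z = v).card hmax
  rw [hDc, hVc] at hle
  set E := D.filter fun z => A *ᵥ z = v with hE
  have hEne : E.Nonempty := by
    rw [← Finset.card_pos]
    by_contra hc
    have : E.card = 0 := by omega
    rw [this] at hle
    have : 0 < (Z + 1) ^ N := by positivity
    omega
  obtain ⟨z₀, hz₀⟩ := hEne
  have hEK : E.card ≤ (KB A Z).card := by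
    apply Finset.card_le_card_of_injOn (fun z => z - z₀)
    · intro x hx
      rw [mem_coe, hE, mem_filter, hD, Fintype.mem_piFinset] at hx
      rw [hE, mem_filter, hD, Fintype.mem_piFinset] at hz₀
      rw [mem_coe, mem_KB]
      refine ⟨?_, ?_⟩
      · apply ht_le
        intro i
        have a1 := mem_Icc.1 (hx.1 i)
        have a2 := mem_Icc.1 (hz₀.1 i)
        show |x i - z₀ i| ≤ (Z : ℤ)
        rw [abs_le]
        constructor <;> linarith [a1.1, a1.2, a2.1, a2.2]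
      · show A *ᵥ (x - z₀) = 0
        rw [mulVec_sub, hx.2, hz₀.2, sub_self]
    · intro x _ z _ h
      simpa using h
  have hle' : ((Z : ℝ) + 1) ^ N ≤ (∏ l, (2 * (N * (W l : ℝ) * Z) + 1)) * E.card := by
    have : (Z + 1) ^ N ≤ (∏ l, (2 * (N * W l * Z) + 1)) * E.card := by
      rw [mul_comm]
      exact hle
    exact_mod_cast this
  have hEK' : (E.card : ℝ) ≤ (KB A Z).card := by exact_mod_cast hEK
  calc (Z : ℝ) ^ N ≤ ((Z : ℝ) + 1) ^ N := by gcongr; linarith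
    _ ≤ (∏ l, (2 * (N * (W l : ℝ) * Z) + 1)) * E.card := hle'
    _ ≤ (∏ l, (3 * N * (W l : ℝ) * Z)) * (KB A Z).card := by
        refine mul_le_mul ?_ hEK' (by positivity) (by positivity)
        refine Finset.prod_le_prod (fun i _ => by positivity) fun l _ => ?_
        have h1 : (1 : ℝ) ≤ N * W l * Z := by
          have h2 := hW l
          have : 1 ≤ N * W l * Z := Nat.one_le_iff_ne_zero.2 (by positivity)
          exact_mod_cast this
        linarith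

/-- The lower bound for the number of primitive vectors, row-wise. -/
theorem prim_low' {k N : ℕ} (hk : k + 2 ≤ N) : ∃ (c : ℝ) (E M : ℕ), 0 < c ∧ 1 ≤ E ∧
    ∀ (A : Matrix (Fin k) (Fin N) ℤ), LinearIndependent ℤ A.row → ∀ (W : Fin k → ℕ) (R : ℕ),
      (∀ i, 1 ≤ W i) → (∀ i j, |A i j| ≤ (W i : ℤ)) → E * (∏ i, W i) ^ M ≤ R →
      c * (R : ℝ) ^ (N - k) ≤ (∏ i, (W i : ℝ)) * (KP A R).card := by
  obtain ⟨C, E, M, hC, hE, h⟩ := KB_le_KP hk
  have hN1 : 1 ≤ N := by omega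
  have hN0 : (0 : ℝ) < N := by exact_mod_cast hN1
  refine ⟨1 / (C * (3 * N) ^ k), E, M, by positivity, hE, ?_⟩
  intro A hA W R hW hAW hR
  have hWp : ∀ i, W i ≤ ∏ i, W i := fun i =>
    Finset.single_le_prod' (f := W) (fun j _ => hW j) (mem_univ i)
  have hW1 : 1 ≤ ∏ i, W i := Finset.one_le_prod' fun j _ => hW j
  have h1 := h A hA (∏ i, W i) R hW1 (fun i j => (hAW i j).trans (by exact_mod_cast hWp i)) hR
  have hR1 : 1 ≤ R := by
    refine le_trans ?_ hR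
    exact Nat.one_le_iff_ne_zero.2 (by positivity)
  have hR0 : (0 : ℝ) < R := by exact_mod_cast hR1
  have h2 := many_ker' hN1 A hR1 hW hAW
  have h3 : (R : ℝ) ^ N = (R : ℝ) ^ (N - k) * (R : ℝ) ^ k := by
    rw [← pow_add]
    congr 1
    omega
  have h4 : ∏ i, (3 * N * (W i : ℝ) * R) = (3 * N) ^ k * (∏ i, (W i : ℝ)) * (R : ℝ) ^ k := by
    rw [Finset.prod_mul_distrib, Finset.prod_mul_distrib]
    simp
  rw [h3, h4] at h2
  have h5 : (R : ℝ) ^ (N - k) ≤ (3 * N) ^ k * (∏ i, (W i : ℝ)) * (KB A R).card := by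
    have : (R : ℝ) ^ (N - k) * (R : ℝ) ^ k ≤
        ((3 * N) ^ k * (∏ i, (W i : ℝ)) * (KB A R).card) * (R : ℝ) ^ k := by
      calc _ ≤ _ := h2
        _ = _ := by ring
    exact le_of_mul_le_mul_right this (by positivity)
  have hP : (0 : ℝ) ≤ ∏ i, (W i : ℝ) := by positivity
  rw [div_mul_eq_mul_div, one_mul, div_le_iff₀ (by positivity)]
  calc (R : ℝ) ^ (N - k) ≤ (3 * N) ^ k * (∏ i, (W i : ℝ)) * (KB A R).card := h5
    _ ≤ (3 * N) ^ k * (∏ i, (W i : ℝ)) * (C * (KP A R).card) := by gcongr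
    _ = _ := by ring

open Classical in
/-- The vectors of height at most `Y` of the kernel outside of a hypersurface. -/
noncomputable def YS {k N : ℕ} (A : Matrix (Fin k) (Fin N) ℤ) (P : MvPolynomial (Fin N) ℤ)
    (Y : ℕ) : Finset (Fin N → ℤ) :=
  (bx N Y).filter fun y => Rep y ∧ A *ᵥ y = 0 ∧ evz P y ≠ 0

theorem mem_YS {k N : ℕ} {A : Matrix (Fin k) (Fin N) ℤ} {P : MvPolynomial (Fin N) ℤ}
    {Y : ℕ} {y : Fin N → ℤ} : y ∈ YS A P Y ↔ ht y ≤ Y ∧ Rep y ∧ A *ᵥ y = 0 ∧ evz P y ≠ 0 := by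
  classical
  simp only [YS, mem_filter, mem_bx]

/-- Many good vectors in the kernel of a matrix. -/
theorem good_y {k N : ℕ} (hk2 : k + 2 ≤ N) (D : ℕ) :
    ∃ (c : ℝ) (E M : ℕ), 0 < c ∧ 1 ≤ E ∧
    ∀ (A : Matrix (Fin k) (Fin N) ℤ), LinearIndependent ℤ A.row →
      ∀ P : MvPolynomial (Fin N) ℤ, P.totalDegree ≤ D →
      (∃ y0 : Fin N → ℤ, A *ᵥ y0 = 0 ∧ evz P y0 ≠ 0) →
      ∀ (W : Fin k → ℕ) (Y : ℕ), (∀ i, 1 ≤ W i) → (∀ i j, |A i j| ≤ (W i : ℤ)) →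
        E * (∏ i, W i) ^ M ≤ Y →
        c * (Y : ℝ) ^ (N - k) ≤ (∏ i, (W i : ℝ)) * (YS A P Y).card := by
  classical
  obtain ⟨c, E, m, hc, hE, h⟩ := prim_low' (k := k) (N := N) hk2
  set κ : ℝ := D * 6 ^ (N - 1) with hκ
  have hκ0 : 0 ≤ κ := by positivity
  obtain ⟨E2, hE2⟩ := exists_nat_ge (4 * κ / c)
  refine ⟨c / 4, E + E2, m + 1, by positivity, by omega, ?_⟩
  intro A hli P hPD hz W Y hW1 hA hY
  set w := ∏ i, W i with hw
  have hW : 1 ≤ w := Finset.one_le_prod' fun j _ => hW1 j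
  have hww : (∏ i, (W i : ℝ)) = (w : ℝ) := by
    rw [hw]
    push_cast
    rfl
  rw [hww]
  have hW' : (1 : ℝ) ≤ w := by exact_mod_cast hW
  have hWmk : w ^ m ≤ w ^ (m + 1) := Nat.pow_le_pow_right hW (by omega)
  have hWk : w ≤ w ^ (m + 1) := Nat.le_self_pow (by omega) w
  have hYE : E * w ^ m ≤ Y := by
    calc E * w ^ m ≤ (E + E2) * w ^ (m + 1) := Nat.mul_le_mul (Nat.le_add_right _ _) hWmk
      _ ≤ Y := hY
  have hYE2 : E2 * w ≤ Y := by
    calc E2 * w ≤ (E + E2) * w ^ (m + 1) := Nat.mul_le_mul (Nat.le_add_left _ _) hWk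
      _ ≤ Y := hY
  have hY1 : 1 ≤ Y := by
    refine le_trans ?_ hYE
    exact Nat.one_le_iff_ne_zero.2 (by positivity)
  have hY' : (1 : ℝ) ≤ Y := by exact_mod_cast hY1
  have h1 := h A hli W Y hW1 hA hYE
  rw [hww] at h1
  obtain ⟨J, hJ⟩ := exists_minor hli
  obtain ⟨y0, hy0, hy1⟩ := hz
  set F1 := YS A P Y with hF
  set b2 := (bx N Y).filter fun y => A *ᵥ y = 0 ∧ evz P y = 0 with hb2
  have hsub : (KP A Y).filter Rep ⊆ F1 ∪ b2 := by
    intro y hy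
    rw [mem_filter, mem_KP] at hy
    obtain ⟨⟨hy1, hy2, hy3⟩, hy4⟩ := hy
    rw [mem_union, hF, mem_YS, hb2, mem_filter, mem_bx]
    by_cases e2 : evz P y = 0
    · exact Or.inr ⟨hy1, hy2, e2⟩
    · exact Or.inl ⟨hy1, hy4, hy2, e2⟩
  have h2 := card_le_card hsub
  have h2' := card_union_le F1 b2
  have h3 := KP_rep A Y
  have h5 : (b2.card : ℝ) ≤ κ * (Y : ℝ) ^ (N - k - 1) := by
    refine (few_ker (by omega) hJ hy0 hy1 Y hY1).trans ?_
    rw [hκ]
    have : (P.totalDegree : ℝ) ≤ D := by exact_mod_cast hPD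
    gcongr
  have h6 : (KP A Y).card ≤ 2 * (F1.card + b2.card) := by omega
  have h7 : ((KP A Y).card : ℝ) ≤ 2 * (F1.card + b2.card) := by
    exact_mod_cast h6
  have h8 : c * (Y : ℝ) ^ (N - k) ≤ (w : ℝ) * (2 * (F1.card + b2.card)) :=
    h1.trans (by gcongr)
  have h9 : (w : ℝ) * (2 * b2.card) ≤ c / 2 * (Y : ℝ) ^ (N - k) := by
    have e1 : (Y : ℝ) ^ (N - k) = (Y : ℝ) ^ (N - k - 1) * Y := by
      rw [← pow_succ]
      congr 1
      omega
    have e2 : 4 * κ ≤ c * (E2 : ℝ) := by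
      rw [div_le_iff₀ hc] at hE2
      linarith
    have e3 : (E2 : ℝ) * w ≤ Y := by exact_mod_cast hYE2
    calc (w : ℝ) * (2 * b2.card) ≤
          (w : ℝ) * (2 * (κ * (Y : ℝ) ^ (N - k - 1))) := by gcongr
      _ = (4 * κ) / 2 * ((w : ℝ) * (Y : ℝ) ^ (N - k - 1)) := by ring
      _ ≤ (c * (E2 : ℝ)) / 2 * ((w : ℝ) * (Y : ℝ) ^ (N - k - 1)) := by gcongr
      _ = c / 2 * ((Y : ℝ) ^ (N - k - 1) * (E2 * (w : ℝ))) := by ring
      _ ≤ c / 2 * ((Y : ℝ) ^ (N - k - 1) * Y) := by gcongr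
      _ = c / 2 * (Y : ℝ) ^ (N - k) := by rw [e1]
  have h10 : (w : ℝ) * (2 * (F1.card + b2.card)) =
      2 * ((w : ℝ) * F1.card) + (w : ℝ) * (2 * b2.card) := by ring
  rw [h10] at h8
  linarith

/-- The weighted sum over the good vectors. -/
theorem good_sum {k N : ℕ} (hk2 : k + 2 ≤ N) (D : ℕ) :
    ∃ (c : ℝ) (E M : ℕ), 0 < c ∧ 1 ≤ E ∧
    ∀ (A : Matrix (Fin k) (Fin N) ℤ), LinearIndependent ℤ A.row →
      ∀ P : MvPolynomial (Fin N) ℤ, P.totalDegree ≤ D →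
      (∃ y0 : Fin N → ℤ, A *ᵥ y0 = 0 ∧ evz P y0 ≠ 0) →
      ∀ (W : Fin k → ℕ) (I₀ I₁ : ℕ), (∀ i, 1 ≤ W i) → (∀ i j, |A i j| ≤ (W i : ℤ)) →
        E * (∏ i, W i) ^ M ≤ 2 ^ I₀ → I₀ ≤ I₁ →
        c * ((I₁ : ℝ) - I₀) ≤ (∏ i, (W i : ℝ)) *
          ∑ y ∈ YS A P (2 ^ I₁), ((ht y : ℝ) ^ (N - k))⁻¹ := by
  classical
  obtain ⟨c, E, M, hc, hE, h⟩ := good_y (k := k) (N := N) hk2 D
  refine ⟨c / 2, E, M, by positivity, hE, ?_⟩
  intro A hli P hPD hz W I₀ I₁ hW1 hA hY hI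
  set r := N - k with hr
  have hr1 : 1 ≤ r := by omega
  have hWp : (0 : ℝ) < ∏ i, (W i : ℝ) := by
    apply Finset.prod_pos
    intro i _
    exact_mod_cast hW1 i
  have key : ∀ y ∈ YS A P (2 ^ I₁),
      ∑ i ∈ (Finset.Ico I₀ I₁).filter (fun i => ht y ≤ 2 ^ i), (((2 : ℝ) ^ i) ^ r)⁻¹ ≤
        2 * ((ht y : ℝ) ^ r)⁻¹ := by
    intro y hy
    have hy' := mem_YS.1 hy
    have hp : 0 < ht y := ht_pos (Pool.Agent.H548.BL.rep_ne hy'.2.1)
    obtain ⟨i0, hi0, hi0'⟩ : ∃ i0, ht y ≤ 2 ^ i0 ∧ ∀ i, ht y ≤ 2 ^ i → i0 ≤ i := by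
      have hex : ∃ i, ht y ≤ 2 ^ i := ⟨I₁, hy'.1⟩
      exact ⟨Nat.find hex, Nat.find_spec hex, fun i hi => Nat.find_min' hex hi⟩
    have hpr : (0 : ℝ) < ht y := by exact_mod_cast hp
    have h1 : ∀ i, (((2 : ℝ) ^ (i0 + i)) ^ r)⁻¹ ≤ ((ht y : ℝ) ^ r)⁻¹ * (1 / 2) ^ i := by
      intro i
      have e1 : (ht y : ℝ) ≤ 2 ^ i0 := by exact_mod_cast hi0
      have e2 : (ht y : ℝ) ^ r * 2 ^ i ≤ ((2 : ℝ) ^ (i0 + i)) ^ r := by
        rw [pow_add, mul_pow]
        have e3 : (2 : ℝ) ^ i ≤ (2 ^ i) ^ r := le_self_pow₀ (one_le_pow₀ (by norm_num)) (by omega)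
        gcongr
      rw [one_div, inv_pow, ← mul_inv]
      gcongr
    calc ∑ i ∈ (Finset.Ico I₀ I₁).filter (fun i => ht y ≤ 2 ^ i), (((2 : ℝ) ^ i) ^ r)⁻¹
        ≤ ∑ i ∈ (Finset.range I₁).image (fun i => i0 + i), (((2 : ℝ) ^ i) ^ r)⁻¹ := by
          apply Finset.sum_le_sum_of_subset_of_nonneg
          · intro i hi
            rw [mem_filter, mem_Ico] at hi
            rw [mem_image]
            have := hi0' i hi.2
            exact ⟨i - i0, by rw [mem_range]; omega, by omega⟩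
          · intro i _ _
            positivity
      _ = ∑ i ∈ Finset.range I₁, (((2 : ℝ) ^ (i0 + i)) ^ r)⁻¹ := by
          rw [Finset.sum_image]
          intro a _ b _ hab
          simpa using hab
      _ ≤ ∑ i ∈ Finset.range I₁, ((ht y : ℝ) ^ r)⁻¹ * (1 / 2) ^ i :=
          Finset.sum_le_sum fun i _ => h1 i
      _ = ((ht y : ℝ) ^ r)⁻¹ * ∑ i ∈ Finset.range I₁, (1 / 2 : ℝ) ^ i := by
          rw [Finset.mul_sum]
      _ ≤ ((ht y : ℝ) ^ r)⁻¹ * 2 := by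
          have : ∑ i ∈ Finset.range I₁, (1 / 2 : ℝ) ^ i ≤ 2 := by
            have h2 := Summable.sum_le_tsum (Finset.range I₁)
              (fun i _ => by positivity) (summable_geometric_two)
            rw [tsum_geometric_two] at h2
            exact h2
          gcongr
      _ = _ := by ring
  have hlow : ∀ i ∈ Finset.Ico I₀ I₁, c ≤ (∏ i, (W i : ℝ)) *
      (((YS A P (2 ^ I₁)).filter fun y => ht y ≤ 2 ^ i).card * (((2 : ℝ) ^ i) ^ r)⁻¹) := by
    intro i hi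
    rw [mem_Ico] at hi
    have h1 := h A hli P hPD hz W (2 ^ i) hW1 hA
      (hY.trans (Nat.pow_le_pow_right (by norm_num) hi.1))
    have h2 : YS A P (2 ^ i) ⊆ (YS A P (2 ^ I₁)).filter fun y => ht y ≤ 2 ^ i := by
      intro y hy
      rw [mem_filter, mem_YS]
      rw [mem_YS] at hy
      exact ⟨⟨hy.1.trans (Nat.pow_le_pow_right (by norm_num) hi.2.le), hy.2⟩, hy.1⟩
    have h3 : ((YS A P (2 ^ i)).card : ℝ) ≤
        ((YS A P (2 ^ I₁)).filter fun y => ht y ≤ 2 ^ i).card := by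
      exact_mod_cast card_le_card h2
    push_cast at h1
    rw [← mul_assoc, ← div_eq_mul_inv, le_div_iff₀ (by positivity)]
    refine h1.trans ?_
    gcongr
  calc c / 2 * ((I₁ : ℝ) - I₀) = (∑ i ∈ Finset.Ico I₀ I₁, c) / 2 := by
        rw [Finset.sum_const, Nat.card_Ico, nsmul_eq_mul, Nat.cast_sub hI]
        ring
    _ ≤ (∑ i ∈ Finset.Ico I₀ I₁, (∏ i, (W i : ℝ)) *
      (((YS A P (2 ^ I₁)).filter fun y => ht y ≤ 2 ^ i).card * (((2 : ℝ) ^ i) ^ r)⁻¹)) / 2 := by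
        gcongr with i hi
        exact hlow i hi
    _ = (∏ i, (W i : ℝ)) * ((∑ i ∈ Finset.Ico I₀ I₁, ∑ y ∈ YS A P (2 ^ I₁),
        if ht y ≤ 2 ^ i then (((2 : ℝ) ^ i) ^ r)⁻¹ else 0) / 2) := by
        rw [← Finset.mul_sum, mul_div_assoc]
        congr 2
        refine Finset.sum_congr rfl fun i _ => ?_
        rw [← Finset.sum_filter, Finset.sum_const, nsmul_eq_mul]
    _ = (∏ i, (W i : ℝ)) * ((∑ y ∈ YS A P (2 ^ I₁),
        ∑ i ∈ (Finset.Ico I₀ I₁).filter (fun i => ht y ≤ 2 ^ i), (((2 : ℝ) ^ i) ^ r)⁻¹) / 2) := by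
        rw [Finset.sum_comm]
        congr 2
        refine Finset.sum_congr rfl fun y _ => ?_
        rw [Finset.sum_filter]
    _ ≤ (∏ i, (W i : ℝ)) * ((∑ y ∈ YS A P (2 ^ I₁), 2 * ((ht y : ℝ) ^ r)⁻¹) / 2) := by
        gcongr with y hy
        exact key y hy
    _ = _ := by
        rw [← Finset.mul_sum]
        ring

end Pool.Agent.T6.H5.TW
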