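import Mathlib
import Pool.Agent.T6.H5.TW.B

/-! Towers of linear sections: definitions and the elimination of the last block. -/

set_option autoImplicit false

namespace Pool.Agent.T6.H5.TW

open Finset Matrix
open Pool.Agent.H548.WM (ht bx mem_bx ht_le le_ht le_ht' exists_ht card_bx_le ht_pos Rep)
open Pool.Agent.H548.TL (evz evz_map evz_int deg_evz)
open Pool.Agent.H548.BK (Zm Zm_map Zm_mulVec mul_Zm exists_minor' indep_of_det)

variable {M : ℕ} {n k : Fin M → ℕ}

/-- All the coordinates of the blocks as one vector. -/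
def fl {R : Type*} (x : ∀ i, Fin (n i) → R) : (Σ i, Fin (n i)) → R := fun p => x p.1 p.2

/-- The matrix of the coefficients of the linear equations of the block `j`. -/
noncomputable def CM {R : Type*} [CommRing R]
    (F : ∀ j, Fin (k j) → Fin (n j) → MvPolynomial (Σ i, Fin (n i)) ℤ) (j : Fin M)
    (x : ∀ i, Fin (n i) → R) : Matrix (Fin (k j)) (Fin (n j)) R :=
  Matrix.of fun l s => evz (F j l s) (fl x)

/-- The polynomial depends only on the blocks `i < j`. -/
def Dep (j : ℕ) (p : MvPolynomial (Σ i, Fin (n i)) ℤ) : Prop :=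
  ∀ (R : Type) [CommRing R] (x x' : ∀ i, Fin (n i) → R), (∀ i : Fin M, (i : ℕ) < j → x i = x' i) →
    evz p (fl x) = evz p (fl x')

/-- The polynomial is homogeneous of degree `δ i` in the variables of the block `i`, for all `i`. -/
def MultiDeg (p : MvPolynomial (Σ i, Fin (n i)) ℤ) (δ : Fin M → ℕ) : Prop :=
  ∀ e ∈ p.support, ∀ i, ∑ t : Fin (n i), e ⟨i, t⟩ = δ i

theorem dep_of_deg {p : MvPolynomial (Σ i, Fin (n i)) ℤ} {δ : Fin M → ℕ} (h : MultiDeg p δ) {j : ℕ}
    (hδ : ∀ i : Fin M, j ≤ (i : ℕ) → δ i = 0) : Dep j p := by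
  intro R _ x x' hx
  unfold evz
  rw [MvPolynomial.eval₂_eq', MvPolynomial.eval₂_eq']
  refine Finset.sum_congr rfl fun e he => ?_
  congr 1
  refine Finset.prod_congr rfl fun q _ => ?_
  obtain ⟨i, t⟩ := q
  by_cases hi : (i : ℕ) < j
  · show x i t ^ _ = x' i t ^ _
    rw [hx i hi]
  · have h1 := h e he i
    rw [hδ i (by omega)] at h1
    have h2 := (Finset.sum_eq_zero_iff.1 h1) t (mem_univ _)
    rw [h2, pow_zero, pow_zero]

/-- The size of a polynomial. -/
def siz (p : MvPolynomial (Σ i, Fin (n i)) ℤ) : ℕ := ∑ e ∈ p.support, (p.coeff e).natAbs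

theorem le_of_deg {p : MvPolynomial (Σ i, Fin (n i)) ℤ} {δ : Fin M → ℕ} (h : MultiDeg p δ)
    (x : ∀ i, Fin (n i) → ℤ) :
    |evz p (fl x)| ≤ ((siz p * ∏ i, ht (x i) ^ δ i : ℕ) : ℤ) := by
  rw [evz_int, MvPolynomial.eval_eq']
  refine (Finset.abs_sum_le_sum_abs _ _).trans ?_
  unfold siz
  push_cast
  rw [Finset.sum_mul]
  refine Finset.sum_le_sum fun e he => ?_
  rw [abs_mul, Finset.abs_prod]
  have e1 : ∏ q : (Σ i, Fin (n i)), |fl x q ^ e q| ≤
      ∏ q : (Σ i, Fin (n i)), ((ht (x q.1) : ℕ) : ℤ) ^ e q := by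
    refine Finset.prod_le_prod (fun i _ => abs_nonneg _) fun q _ => ?_
    rw [abs_pow]
    exact pow_le_pow_left₀ (abs_nonneg _) (le_ht' (x q.1) q.2) _
  have e2 : ∏ q : (Σ i, Fin (n i)), ((ht (x q.1) : ℕ) : ℤ) ^ e q =
      ∏ i, ((ht (x i) : ℕ) : ℤ) ^ δ i := by
    rw [Fintype.prod_sigma]
    refine Finset.prod_congr rfl fun i _ => ?_
    show ∏ y, ((ht (x i) : ℕ) : ℤ) ^ e ⟨i, y⟩ = _
    rw [Finset.prod_pow_eq_pow_sum, h e he i]
  rw [e2] at e1
  gcongr

theorem fl_map {R S : Type*} [CommRing R] [CommRing S] (φ : R →+* S) (x : ∀ i, Fin (n i) → R) :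
    (fun q => φ (fl x q)) = fl (fun i t => φ (x i t)) := rfl

theorem CM_map {R S : Type*} [CommRing R] [CommRing S]
    (F : ∀ j, Fin (k j) → Fin (n j) → MvPolynomial (Σ i, Fin (n i)) ℤ) (j : Fin M) (φ : R →+* S)
    (x : ∀ i, Fin (n i) → R) : (CM F j x).map φ = CM F j (fun i t => φ (x i t)) := by
  ext l s
  show φ (evz (F j l s) (fl x)) = evz (F j l s) (fl fun i t => φ (x i t))
  rw [evz_map]
  rfl

theorem CM_congr {F : ∀ j, Fin (k j) → Fin (n j) → MvPolynomial (Σ i, Fin (n i)) ℤ}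
    (hF : ∀ (j : Fin M) l s, Dep (j : ℕ) (F j l s)) {R : Type} [CommRing R] (j : Fin M)
    {x x' : ∀ i, Fin (n i) → R} (h : ∀ i : Fin M, (i : ℕ) < j → x i = x' i) :
    CM F j x = CM F j x' := by
  ext l s
  exact hF j l s R x x' h

/-- The product of the minor and of the value at the point of the kernel. -/
noncomputable def val (F : ∀ j, Fin (k j) → Fin (n j) → MvPolynomial (Σ i, Fin (n i)) ℤ) (j : Fin M)
    (J : Fin (k j) → Fin (n j)) (g : MvPolynomial (Σ i, Fin (n i)) ℤ) {R : Type*} [CommRing R]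
    (x : ∀ i, Fin (n i) → R) (w : Fin (n j) → R) : R :=
  ((CM F j x).submatrix id J).det * evz g (fl (Function.update x j (Zm (CM F j x) J *ᵥ w)))

theorem upd_map {R S : Type*} (φ : R → S) (x : ∀ i, Fin (n i) → R) (j : Fin M)
    (v : Fin (n j) → R) : (fun i t => φ (Function.update x j v i t)) =
      Function.update (fun i t => φ (x i t)) j (fun t => φ (v t)) := by
  funext i
  by_cases h : i = j
  · subst h
    simp
  · simp [Function.update_of_ne h]

theorem val_map (F : ∀ j, Fin (k j) → Fin (n j) → MvPolynomial (Σ i, Fin (n i)) ℤ) (j : Fin M)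
    (J : Fin (k j) → Fin (n j)) (g : MvPolynomial (Σ i, Fin (n i)) ℤ) {R S : Type*} [CommRing R]
    [CommRing S] (φ : R →+* S) (x : ∀ i, Fin (n i) → R) (w : Fin (n j) → R) :
    φ (val F j J g x w) = val F j J g (fun i t => φ (x i t)) (fun t => φ (w t)) := by
  unfold val
  rw [map_mul, Pool.Agent.H548.BK.det_map, CM_map, evz_map, fl_map, upd_map]
  congr 4
  funext t
  rw [← CM_map, ← Zm_map]
  show φ (∑ c : Fin (n j), Zm (CM F j x) J t c * w c) =
    ∑ c : Fin (n j), φ (Zm (CM F j x) J t c) * φ (w c)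
  rw [map_sum]
  refine Finset.sum_congr rfl fun c _ => ?_
  rw [map_mul]

theorem val_congr {F : ∀ j, Fin (k j) → Fin (n j) → MvPolynomial (Σ i, Fin (n i)) ℤ}
    (hF : ∀ (j : Fin M) l s, Dep (j : ℕ) (F j l s)) (j : Fin M)
    (J : Fin (k j) → Fin (n j)) {g : MvPolynomial (Σ i, Fin (n i)) ℤ} (hg : Dep (j + 1) g)
    {R : Type} [CommRing R] {x x' : ∀ i, Fin (n i) → R}
    (h : ∀ i : Fin M, (i : ℕ) < j → x i = x' i) (w : Fin (n j) → R) :
    val F j J g x w = val F j J g x' w := by
  unfold val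
  rw [CM_congr hF j h]
  congr 1
  apply hg
  intro i hi
  by_cases hij : i = j
  · subst hij
    rw [Function.update_self, Function.update_self]
  · rw [Function.update_of_ne hij, Function.update_of_ne hij]
    apply h
    have : (i : ℕ) ≠ j := fun h => hij (Fin.ext h)
    omega

/-- Elimination of the block `j`. -/
theorem elim {F : ∀ j, Fin (k j) → Fin (n j) → MvPolynomial (Σ i, Fin (n i)) ℤ}
    (hF : ∀ (j : Fin M) l s, Dep (j : ℕ) (F j l s)) (j : Fin M)
    {g : MvPolynomial (Σ i, Fin (n i)) ℤ} (hg : Dep (j + 1) g) (z : ∀ i, Fin (n i) → ℂ)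
    (hz0 : CM F j z *ᵥ z j = 0) (hzi : LinearIndependent ℂ (CM F j z).row)
    (hzg : evz g (fl z) ≠ 0) :
    ∃ g' : MvPolynomial (Σ i, Fin (n i)) ℤ, Dep (j : ℕ) g' ∧ evz g' (fl z) ≠ 0 ∧
      ∀ x : ∀ i, Fin (n i) → ℤ, evz g' (fl x) ≠ 0 → LinearIndependent ℤ (CM F j x).row ∧
        ∃ y0 : Fin (n j) → ℤ, CM F j x *ᵥ y0 = 0 ∧ evz g (fl (Function.update x j y0)) ≠ 0 := by
  classical
  obtain ⟨J, hJ⟩ := exists_minor' hzi
  -- the choice of the integer parameters
  obtain ⟨w, hw⟩ : ∃ w : Fin (n j) → ℤ, val F j J g z (fun c => (w c : ℂ)) ≠ 0 := by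
    by_contra hcon
    push Not at hcon
    set Q : MvPolynomial (Fin (n j)) ℂ :=
      val F j J g (fun i t => MvPolynomial.C (z i t)) (fun c => MvPolynomial.X c) with hQ
    have hQe : ∀ v : Fin (n j) → ℂ, MvPolynomial.eval v Q = val F j J g z v := by
      intro v
      rw [hQ, val_map]
      simp only [MvPolynomial.eval_C, MvPolynomial.eval_X]
    have hQ0 : Q = 0 := by
      apply MvPolynomial.funext_set (fun _ => Set.range (Int.cast : ℤ → ℂ))
        (fun _ => Set.infinite_range_of_injective Int.cast_injective)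
      intro v hv
      rw [map_zero, hQe]
      have hv' : ∀ c, ∃ a : ℤ, (a : ℂ) = v c := fun c => hv c (Set.mem_univ _)
      choose a ha using hv'
      have : v = fun c => (a c : ℂ) := funext fun c => (ha c).symm
      rw [this]
      exact hcon a
    have h1 := hQe (((CM F j z).submatrix id J).det⁻¹ • z j)
    rw [hQ0, map_zero] at h1
    unfold val at h1
    rw [mulVec_smul, Zm_mulVec _ J hz0, smul_smul, inv_mul_cancel₀ hJ, one_smul,
      Function.update_eq_self] at h1
    exact mul_ne_zero hJ hzg h1.symm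
  -- the generic point
  set ξ : ∀ i, Fin (n i) → MvPolynomial (Σ i, Fin (n i)) ℤ := fun i t =>
    if (i : ℕ) < j then MvPolynomial.X ⟨i, t⟩ else 0 with hξ
  set g' : MvPolynomial (Σ i, Fin (n i)) ℤ := val F j J g ξ (fun c => MvPolynomial.C (w c)) with hg'
  have key : ∀ (R : Type) [CommRing R] (x : ∀ i, Fin (n i) → R),
      evz g' (fl x) = val F j J g x (fun c => (w c : R)) := by
    intro R _ x
    set φ := MvPolynomial.eval₂Hom (Int.castRingHom R) (fl x) with hφ
    have h1 : evz g' (fl x) = φ g' := rfl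
    rw [h1, hg', val_map]
    have e1 : (fun i t => φ (ξ i t)) = fun (i : Fin M) (t : Fin (n i)) =>
        if (i : ℕ) < j then x i t else 0 := by
      funext i t
      rw [hξ]
      simp only
      split_ifs
      · rw [hφ, MvPolynomial.eval₂Hom_X']
        rfl
      · rw [map_zero]
    have e2 : (fun c => φ (MvPolynomial.C (w c))) = fun c => (w c : R) := by
      funext c
      rw [hφ, MvPolynomial.eval₂Hom_C]
      rfl
    rw [e1, e2]
    apply val_congr hF j J hg
    intro i hi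
    funext t
    rw [if_pos hi]
  refine ⟨g', ?_, ?_, ?_⟩
  · intro R _ x x' hx
    rw [key, key]
    exact val_congr hF j J hg hx _
  · rw [key]
    exact hw
  · intro x hx
    rw [key] at hx
    unfold val at hx
    refine ⟨indep_of_det (left_ne_zero_of_mul hx), _, ?_, right_ne_zero_of_mul hx⟩
    rw [mulVec_mulVec, mul_Zm, zero_mulVec]

/-- The chain of the polynomials. -/
theorem chain {F : ∀ j, Fin (k j) → Fin (n j) → MvPolynomial (Σ i, Fin (n i)) ℤ}
    (hF : ∀ (j : Fin M) l s, Dep (j : ℕ) (F j l s)) (G : MvPolynomial (Σ i, Fin (n i)) ℤ)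
    (z : ∀ i, Fin (n i) → ℂ) (hz0 : ∀ j, CM F j z *ᵥ z j = 0)
    (hzi : ∀ j, LinearIndependent ℂ (CM F j z).row) (hG : evz G (fl z) ≠ 0) :
    ∃ g : ℕ → MvPolynomial (Σ i, Fin (n i)) ℤ, g M = G ∧ (∀ j ≤ M, Dep j (g j)) ∧
      (∀ x : ∀ i, Fin (n i) → ℤ, evz (g 0) (fl x) ≠ 0) ∧
      ∀ (j : Fin M) (x : ∀ i, Fin (n i) → ℤ), evz (g j) (fl x) ≠ 0 →
        LinearIndependent ℤ (CM F j x).row ∧
        ∃ y0 : Fin (n j) → ℤ, CM F j x *ᵥ y0 = 0 ∧
          evz (g (j + 1)) (fl (Function.update x j y0)) ≠ 0 := by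
  have main : ∀ t ≤ M, ∃ g : ℕ → MvPolynomial (Σ i, Fin (n i)) ℤ, g M = G ∧
      (∀ j ≤ M, M - t ≤ j → Dep j (g j) ∧ evz (g j) (fl z) ≠ 0) ∧
      ∀ (j : Fin M), M - t ≤ j → ∀ (x : ∀ i, Fin (n i) → ℤ), evz (g j) (fl x) ≠ 0 →
        LinearIndependent ℤ (CM F j x).row ∧
        ∃ y0 : Fin (n j) → ℤ, CM F j x *ᵥ y0 = 0 ∧
          evz (g (j + 1)) (fl (Function.update x j y0)) ≠ 0 := by
    intro t
    induction t with
    | zero =>
      intro _
      refine ⟨fun _ => G, rfl, ?_, ?_⟩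
      · intro j hj hj'
        refine ⟨?_, hG⟩
        intro R _ x x' hx
        have : x = x' := funext fun i => hx i (by have := i.2; omega)
        rw [this]
      · intro j hj
        have := j.2
        omega
    | succ t ih =>
      intro ht
      obtain ⟨g, hgM, hg1, hg2⟩ := ih (by omega)
      set j : Fin M := ⟨M - (t + 1), by omega⟩ with hj
      have hj1 : (j : ℕ) + 1 = M - t := by
        rw [hj]
        simp only
        omega
      obtain ⟨hd, hzg⟩ := hg1 (j + 1) (by omega) (by omega)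
      obtain ⟨g', h1, h2, h3⟩ := elim hF j hd z (hz0 j) (hzi j) hzg
      refine ⟨Function.update g j g', ?_, ?_, ?_⟩
      · rw [Function.update_of_ne (by omega), hgM]
      · intro i hi hi'
        by_cases hij : i = j
        · subst hij
          rw [Function.update_self]
          exact ⟨h1, h2⟩
        · rw [Function.update_of_ne hij]
          exact hg1 i hi (by omega)
      · intro i hi x hx
        by_cases hij : i = j
        · subst hij
          rw [Function.update_self] at hx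
          rw [Function.update_of_ne (by omega)]
          exact h3 x hx
        · have hij' : (i : ℕ) ≠ j := fun h => hij (Fin.ext h)
          rw [Function.update_of_ne hij'] at hx
          rw [Function.update_of_ne (by omega)]
          exact hg2 i (by omega) x hx
  obtain ⟨g, h1, h2, h3⟩ := main M le_rfl
  refine ⟨g, h1, fun j hj => (h2 j hj (by omega)).1, ?_, fun j => h3 j (by omega)⟩
  intro x hx
  obtain ⟨h4, h5⟩ := h2 0 (by omega) (by omega)
  apply h5
  rw [h4 ℂ z (fun i t => ((x i t : ℤ) : ℂ)) (fun i hi => absurd hi (Nat.not_lt_zero _))]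
  have h6 := evz_map (Int.castRingHom ℂ) (g 0) (fl x)
  rw [hx, map_zero] at h6
  exact h6.symm

end Pool.Agent.T6.H5.TW
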