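import Mathlib
import Pool.Agent.T6.H5.TW.C

/-! Towers of linear sections: the weighted sums over the prefixes. -/

set_option autoImplicit false

namespace Pool.Agent.T6.H5.TW

open Finset Matrix
open Pool.Agent.H548.WM (ht bx mem_bx ht_le le_ht le_ht' exists_ht card_bx_le ht_pos Rep)
open Pool.Agent.H548.TL (evz evz_map evz_int deg_evz)

variable {M : ℕ} {n k : Fin M → ℕ}

/-- The polynomial in the variables of the block `j`. -/
noncomputable def slice (g : MvPolynomial (Σ i, Fin (n i)) ℤ) (j : Fin M)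
    (x : ∀ i, Fin (n i) → ℤ) : MvPolynomial (Fin (n j)) ℤ :=
  evz g (fl (Function.update (fun i t => (MvPolynomial.C (x i t) : MvPolynomial (Fin (n j)) ℤ)) j
    (fun t => MvPolynomial.X t)))

theorem evz_slice (g : MvPolynomial (Σ i, Fin (n i)) ℤ) (j : Fin M)
    (x : ∀ i, Fin (n i) → ℤ) (y : Fin (n j) → ℤ) :
    evz (slice g j x) y = evz g (fl (Function.update x j y)) := by
  rw [evz_int]
  unfold slice
  rw [evz_map, fl_map, upd_map]
  simp only [MvPolynomial.eval_C, MvPolynomial.eval_X]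

theorem deg_slice (g : MvPolynomial (Σ i, Fin (n i)) ℤ) (j : Fin M)
    (x : ∀ i, Fin (n i) → ℤ) : (slice g j x).totalDegree ≤ g.totalDegree := by
  unfold slice
  apply deg_evz
  rintro ⟨i, t⟩
  show (Function.update (fun i t => (MvPolynomial.C (x i t) : MvPolynomial (Fin (n j)) ℤ)) j
    (fun t => MvPolynomial.X t) i t).totalDegree ≤ 1
  by_cases h : i = j
  · subst h
    rw [Function.update_self, MvPolynomial.totalDegree_X]
  · rw [Function.update_of_ne h, MvPolynomial.totalDegree_C]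
    norm_num

/-- The size of all the coefficients. -/
def C0 (F : ∀ j, Fin (k j) → Fin (n j) → MvPolynomial (Σ i, Fin (n i)) ℤ) : ℕ :=
  ∑ j, ∑ l, ∑ s, siz (F j l s) + 1

theorem C0_pos (F : ∀ j, Fin (k j) → Fin (n j) → MvPolynomial (Σ i, Fin (n i)) ℤ) :
    1 ≤ C0 F := by
  unfold C0
  omega

theorem siz_le_C0 (F : ∀ j, Fin (k j) → Fin (n j) → MvPolynomial (Σ i, Fin (n i)) ℤ) (j : Fin M)
    (l : Fin (k j)) (s : Fin (n j)) : siz (F j l s) ≤ C0 F := by
  unfold C0
  calc siz (F j l s) ≤ ∑ s, siz (F j l s) :=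
        Finset.single_le_sum (f := fun s => siz (F j l s)) (fun _ _ => Nat.zero_le _) (mem_univ s)
    _ ≤ ∑ l, ∑ s, siz (F j l s) :=
        Finset.single_le_sum (f := fun l => ∑ s, siz (F j l s)) (fun _ _ => Nat.zero_le _)
          (mem_univ l)
    _ ≤ ∑ j, ∑ l, ∑ s, siz (F j l s) :=
        Finset.single_le_sum (f := fun j => ∑ l, ∑ s, siz (F j l s)) (fun _ _ => Nat.zero_le _)
          (mem_univ j)
    _ ≤ _ := Nat.le_succ _

/-- The bound of the coefficients of one equation. -/
def WW (F : ∀ j, Fin (k j) → Fin (n j) → MvPolynomial (Σ i, Fin (n i)) ℤ)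
    (d : ∀ j, Fin (k j) → Fin M → ℕ) (j : Fin M) (x : ∀ i, Fin (n i) → ℤ) (l : Fin (k j)) : ℕ :=
  C0 F * ∏ i, ht (x i) ^ d j l i

/-- The product of the powers of the heights. -/
noncomputable def HP (d : ∀ j, Fin (k j) → Fin M → ℕ) (j : Fin M) (x : ∀ i, Fin (n i) → ℤ) : ℕ :=
  ∏ i, ht (x i) ^ (∑ l, d j l i)

theorem prod_WW (F : ∀ j, Fin (k j) → Fin (n j) → MvPolynomial (Σ i, Fin (n i)) ℤ)
    (d : ∀ j, Fin (k j) → Fin M → ℕ) (j : Fin M) (x : ∀ i, Fin (n i) → ℤ) :
    ∏ l, WW F d j x l = C0 F ^ k j * HP d j x := by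
  unfold WW HP
  rw [Finset.prod_mul_distrib, Finset.prod_const, card_univ, Fintype.card_fin, Finset.prod_comm]
  congr 1
  refine Finset.prod_congr rfl fun i _ => ?_
  rw [Finset.prod_pow_eq_pow_sum]

theorem CM_le {F : ∀ j, Fin (k j) → Fin (n j) → MvPolynomial (Σ i, Fin (n i)) ℤ}
    {d : ∀ j, Fin (k j) → Fin M → ℕ} (hd : ∀ j l s, MultiDeg (F j l s) (d j l)) (j : Fin M)
    (x : ∀ i, Fin (n i) → ℤ) (l : Fin (k j)) (s : Fin (n j)) :
    |CM F j x l s| ≤ (WW F d j x l : ℤ) := by
  refine (le_of_deg (hd j l s) x).trans ?_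
  unfold WW
  exact_mod_cast Nat.mul_le_mul_right _ (siz_le_C0 F j l s)

/-- The good prefixes. -/
def Good (F : ∀ j, Fin (k j) → Fin (n j) → MvPolynomial (Σ i, Fin (n i)) ℤ)
    (g : ℕ → MvPolynomial (Σ i, Fin (n i)) ℤ) (j : ℕ) (x : ∀ i, Fin (n i) → ℤ) : Prop :=
  (∀ i : Fin M, (i : ℕ) < j → Rep (x i) ∧ CM F i x *ᵥ x i = 0 ∧
    LinearIndependent ℤ (CM F i x).row) ∧ evz (g j) (fl x) ≠ 0 ∧
    ∀ i : Fin M, j ≤ (i : ℕ) → x i = 0

theorem ht_zero {N : ℕ} : ht (0 : Fin N → ℤ) = 0 := by
  unfold ht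
  simp

/-- The weight of a prefix. -/
noncomputable def wt (d : ∀ j, Fin (k j) → Fin M → ℕ) (j : ℕ) (x : ∀ i, Fin (n i) → ℤ) : ℝ :=
  ∏ i : Fin M, if (i : ℕ) < j then ((ht (x i) : ℝ) ^ (n i - k i))⁻¹ * HP d i x else 1

theorem HP_update {d : ∀ j, Fin (k j) → Fin M → ℕ}
    (hd0 : ∀ (j : Fin M) l (i : Fin M), (j : ℕ) ≤ i → d j l i = 0) {i j : Fin M}
    (hij : (i : ℕ) ≤ j) (x : ∀ i, Fin (n i) → ℤ) (y : Fin (n j) → ℤ) :
    HP d i (Function.update x j y) = HP d i x := by
  unfold HP
  refine Finset.prod_congr rfl fun i' _ => ?_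
  by_cases h : i' = j
  · subst h
    have : ∑ l, d i l i' = 0 := Finset.sum_eq_zero fun l _ => hd0 i l i' hij
    rw [this, pow_zero, pow_zero]
  · rw [Function.update_of_ne h]

theorem wt_succ {d : ∀ j, Fin (k j) → Fin M → ℕ}
    (hd0 : ∀ (j : Fin M) l (i : Fin M), (j : ℕ) ≤ i → d j l i = 0) (j : Fin M)
    (x : ∀ i, Fin (n i) → ℤ) (y : Fin (n j) → ℤ) :
    wt d (j + 1) (Function.update x j y) =
      wt d j x * ((HP d j x : ℝ) * ((ht y : ℝ) ^ (n j - k j))⁻¹) := by
  unfold wt
  rw [← Finset.mul_prod_erase univ _ (mem_univ j),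
    ← Finset.mul_prod_erase univ (fun i : Fin M => if (i : ℕ) < j then _ else _) (mem_univ j)]
  have h1 : ∀ i ∈ univ.erase j,
      (if (i : ℕ) < (j : ℕ) + 1 then ((ht (Function.update x j y i) : ℝ) ^ (n i - k i))⁻¹ *
        HP d i (Function.update x j y) else 1) =
      (if (i : ℕ) < (j : ℕ) then ((ht (x i) : ℝ) ^ (n i - k i))⁻¹ * (HP d i x : ℝ) else 1) := by
    intro i hi
    have hij : i ≠ j := (mem_erase.1 hi).1
    have hij' : (i : ℕ) ≠ j := fun h => hij (Fin.ext h)
    by_cases h : (i : ℕ) < j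
    · rw [if_pos (by omega), if_pos h, Function.update_of_ne hij, HP_update hd0 h.le]
    · rw [if_neg (by omega), if_neg h]
  rw [Finset.prod_congr rfl h1, if_pos (by omega), if_neg (by omega), Function.update_self,
    HP_update hd0 le_rfl]
  ring

/-- The weighted sums over the prefixes. -/
theorem prefixes (hk : ∀ j, k j + 2 ≤ n j)
    {F : ∀ j, Fin (k j) → Fin (n j) → MvPolynomial (Σ i, Fin (n i)) ℤ}
    {d : ∀ j, Fin (k j) → Fin M → ℕ} (hd : ∀ j l s, MultiDeg (F j l s) (d j l))
    (hd0 : ∀ (j : Fin M) l (i : Fin M), (j : ℕ) ≤ i → d j l i = 0)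
    {g : ℕ → MvPolynomial (Σ i, Fin (n i)) ℤ}
    (hg0 : ∀ x : ∀ i, Fin (n i) → ℤ, evz (g 0) (fl x) ≠ 0)
    (hg : ∀ (j : Fin M) (x : ∀ i, Fin (n i) → ℤ), evz (g j) (fl x) ≠ 0 →
        LinearIndependent ℤ (CM F j x).row ∧
        ∃ y0 : Fin (n j) → ℤ, CM F j x *ᵥ y0 = 0 ∧
          evz (g (j + 1)) (fl (Function.update x j y0)) ≠ 0) :
    ∀ j ≤ M, ∀ q : ℕ, 1 ≤ q → ∃ (c : ℝ) (L₀ : ℕ), 0 < c ∧ ∀ L : ℕ, L₀ ≤ L →
      ∃ S : Finset (∀ i, Fin (n i) → ℤ), (∀ x ∈ S, Good F g j x ∧ ∀ i, ht (x i) ≤ 2 ^ (L / q)) ∧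
        c * (L : ℝ) ^ j ≤ ∑ x ∈ S, wt d j x := by
  classical
  have hF : ∀ (j : Fin M) l s, Dep (j : ℕ) (F j l s) := fun j l s =>
    dep_of_deg (hd j l s) fun i hi => hd0 j l i hi
  intro j
  induction j with
  | zero =>
    intro _ q hq
    refine ⟨1, 0, one_pos, fun L _ => ⟨{0}, ?_, ?_⟩⟩
    · intro x hx
      rw [mem_singleton] at hx
      subst hx
      refine ⟨⟨fun i hi => absurd hi (Nat.not_lt_zero _), hg0 _, fun i _ => rfl⟩, fun i => ?_⟩
      show ht (0 : Fin (n i) → ℤ) ≤ _
      rw [ht_zero]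
      positivity
    · rw [sum_singleton]
      unfold wt
      simp
  | succ j₀ ih =>
    intro hjM q hq
    set j : Fin M := ⟨j₀, by omega⟩ with hj
    have hjv : (j : ℕ) = j₀ := rfl
    obtain ⟨c₁, E, M₁, hc₁, hE, hsum⟩ := good_sum (hk j) (g (j + 1)).totalDegree
    set Se := ∑ i, ∑ l, d j l i with hSe
    set q' := 4 * q * (M₁ * Se + 1) with hq'
    have hq'1 : 1 ≤ q' := Nat.one_le_iff_ne_zero.2 (by positivity)
    obtain ⟨c₂, L₂, hc₂, hS⟩ := ih (by omega) q' hq'1
    have hC0 := C0_pos F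
    obtain ⟨a, ha⟩ : ∃ a : ℕ, E * C0 F ^ (k j * M₁) ≤ 2 ^ a :=
      ⟨_, (Nat.lt_two_pow_self (n := E * C0 F ^ (k j * M₁))).le⟩
    have hC0' : (0 : ℝ) < C0 F := by exact_mod_cast hC0
    have hq0 : (0 : ℝ) < q := by exact_mod_cast hq
    refine ⟨c₂ * (c₁ / (4 * q * C0 F ^ k j)), L₂ + 4 * q * (a + 1), by positivity, ?_⟩
    intro L hL
    obtain ⟨S, hS1, hS2⟩ := hS L (by omega)
    set Y : (∀ i, Fin (n i) → ℤ) → Finset (Fin (n j) → ℤ) := fun x =>
      YS (CM F j x) (slice (g (j + 1)) j x) (2 ^ (L / q)) with hY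
    have hmemY : ∀ x y, y ∈ Y x ↔ ht y ≤ 2 ^ (L / q) ∧ Rep y ∧ CM F j x *ᵥ y = 0 ∧
        evz (g (j + 1)) (fl (Function.update x j y)) ≠ 0 := by
      intro x y
      rw [hY]
      simp only
      rw [mem_YS, evz_slice]
    have hinj : Set.InjOn (fun p : (Σ _ : (∀ i, Fin (n i) → ℤ), Fin (n j) → ℤ) =>
        Function.update p.1 j p.2) (S.sigma Y : Set _) := by
      rintro ⟨x, y⟩ hx ⟨x', y'⟩ hx' heq
      rw [mem_coe, mem_sigma] at hx hx'
      have h0 := (hS1 x hx.1).1.2.2 j le_rfl
      have h0' := (hS1 x' hx'.1).1.2.2 j le_rfl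
      simp only at heq
      have e1 : x = x' := by
        funext i
        by_cases hij : i = j
        · subst hij
          rw [h0, h0']
        · have := congrFun heq i
          rwa [Function.update_of_ne hij, Function.update_of_ne hij] at this
      subst e1
      have e2 := congrFun heq j
      rw [Function.update_self, Function.update_self] at e2
      rw [e2]
    refine ⟨(S.sigma Y).image fun p => Function.update p.1 j p.2, ?_, ?_⟩
    · intro x' hx'
      rw [mem_image] at hx'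
      obtain ⟨⟨x, y⟩, hxy, rfl⟩ := hx'
      rw [mem_sigma] at hxy
      obtain ⟨hx, hy⟩ := hxy
      simp only at hx hy
      rw [hmemY] at hy
      obtain ⟨⟨g1, g2, g3⟩, g4⟩ := hS1 x hx
      refine ⟨⟨?_, hy.2.2.2, ?_⟩, ?_⟩
      · intro i hi
        have hCi : CM F i (Function.update x j y) = CM F i x := by
          apply CM_congr hF
          intro i' hi'
          rw [Function.update_of_ne]
          intro h
          rw [h] at hi'
          omega
        rw [hCi]
        by_cases hij : i = j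
        · subst hij
          rw [Function.update_self]
          exact ⟨hy.2.1, hy.2.2.1, (hg _ x g2).1⟩
        · have hij' : (i : ℕ) ≠ j := fun h => hij (Fin.ext h)
          rw [Function.update_of_ne hij]
          exact g1 i (by omega)
      · intro i hi
        rw [Function.update_of_ne (by rintro rfl; omega)]
        exact g3 i (by omega)
      · intro i
        by_cases hij : i = j
        · subst hij
          simp only [Function.update_self]
          exact hy.1
        · simp only [Function.update_of_ne hij]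
          refine (g4 i).trans (Nat.pow_le_pow_right (by norm_num) ?_)
          apply Nat.div_le_div_left _ (by omega)
          rw [hq']
          nlinarith [Nat.zero_le (M₁ * Se)]
    · rw [Finset.sum_image hinj, Finset.sum_sigma]
      have hterm : ∀ x ∈ S, wt d j x * (c₁ / (4 * q * C0 F ^ k j) * L) ≤
          ∑ y ∈ Y x, wt d (j₀ + 1) (Function.update x j y) := by
        intro x hx
        obtain ⟨⟨g1, g2, g3⟩, g4⟩ := hS1 x hx
        have hh : ∀ (i : Fin M), (i : ℕ) < j → 1 ≤ ht (x i) := fun i hi =>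
          ht_pos (Pool.Agent.H548.BL.rep_ne (g1 i hi).1)
        have hW1 : ∀ l, 1 ≤ WW F d j x l := by
          intro l
          unfold WW
          apply Nat.mul_pos hC0
          apply Finset.prod_pos
          intro i _
          by_cases hi : (i : ℕ) < j
          · exact pow_pos (hh i hi) _
          · rw [hd0 j l i (by omega), pow_zero]
            norm_num
        have hHP : HP d j x ≤ 2 ^ (L / q' * Se) := by
          unfold HP
          calc ∏ i, ht (x i) ^ (∑ l, d j l i) ≤ ∏ i, (2 ^ (L / q')) ^ (∑ l, d j l i) :=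
                Finset.prod_le_prod' fun i _ => Nat.pow_le_pow_left (g4 i) _
            _ = 2 ^ (L / q' * Se) := by
                rw [Finset.prod_pow_eq_pow_sum, ← pow_mul]
        have hcond : E * (∏ l, WW F d j x l) ^ M₁ ≤ 2 ^ (L / (2 * q)) := by
          rw [prod_WW]
          have h1 : L / q' * Se * M₁ ≤ L / (4 * q) := by
            rw [Nat.le_div_iff_mul_le (by positivity)]
            calc L / q' * Se * M₁ * (4 * q) = L / q' * (4 * q * (M₁ * Se)) := by ring
              _ ≤ L / q' * q' := by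
                  apply Nat.mul_le_mul_left
                  rw [hq']
                  apply Nat.mul_le_mul_left
                  omega
              _ ≤ L := Nat.div_mul_le_self L q'
          have h2 : a ≤ L / (4 * q) := by
            rw [Nat.le_div_iff_mul_le (by positivity)]
            calc a * (4 * q) = 4 * q * a := by ring
              _ ≤ 4 * q * (a + 1) := Nat.mul_le_mul_left _ (by omega)
              _ ≤ L := by omega
          have h3 : L / (4 * q) + L / (4 * q) ≤ L / (2 * q) := by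
            rw [Nat.le_div_iff_mul_le (by positivity)]
            calc (L / (4 * q) + L / (4 * q)) * (2 * q) = L / (4 * q) * (4 * q) := by ring
              _ ≤ L := Nat.div_mul_le_self L _
          calc E * (C0 F ^ k j * HP d j x) ^ M₁ = E * C0 F ^ (k j * M₁) * HP d j x ^ M₁ := by
                rw [mul_pow, ← pow_mul]
                ring
            _ ≤ 2 ^ a * (2 ^ (L / q' * Se)) ^ M₁ :=
                Nat.mul_le_mul ha (Nat.pow_le_pow_left hHP _)
            _ = 2 ^ (a + L / q' * Se * M₁) := by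
                rw [← pow_mul, ← pow_add]
            _ ≤ 2 ^ (L / (2 * q)) := Nat.pow_le_pow_right (by norm_num) (by omega)
        have hle : L / (2 * q) ≤ L / q := Nat.div_le_div_left (by omega) (by omega)
        obtain ⟨hli, y0, hy0, hy1⟩ := hg j x g2
        have h1 := hsum (CM F j x) hli (slice (g (j + 1)) j x) (deg_slice _ _ _)
          ⟨y0, hy0, by rw [evz_slice]; exact hy1⟩ (WW F d j x) (L / (2 * q)) (L / q) hW1
          (CM_le hd j x) hcond hle
        have hprod : (∏ l, (WW F d j x l : ℝ)) = (C0 F : ℝ) ^ k j * HP d j x := by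
          have := prod_WW F d j x
          exact_mod_cast this
        rw [hprod] at h1
        have hdiff : (L : ℝ) / (4 * q) ≤ ((L / q : ℕ) : ℝ) - ((L / (2 * q) : ℕ) : ℝ) := by
          have e1 : ((L / (2 * q) : ℕ) : ℝ) ≤ (L : ℝ) / (2 * q) := by
            have := Nat.cast_div_le (α := ℝ) (m := L) (n := 2 * q)
            push_cast at this
            exact this
          have e2 : (L : ℝ) / q - 1 ≤ ((L / q : ℕ) : ℝ) := by
            have h5 : L < q * (L / q + 1) := Nat.lt_mul_div_succ L (by omega)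
            have h5' : (L : ℝ) < q * ((L / q : ℕ) + 1) := by exact_mod_cast h5
            rw [sub_le_iff_le_add, div_le_iff₀ hq0]
            linarith
          have e3 : (1 : ℝ) ≤ (L : ℝ) / (4 * q) := by
            rw [le_div_iff₀ (by positivity)]
            have h6 : 4 * q ≤ L := by nlinarith
            have : (4 : ℝ) * q ≤ L := by exact_mod_cast h6
            linarith
          have e4 : (L : ℝ) / q = 4 * ((L : ℝ) / (4 * q)) := by
            field_simp
          have e5 : (L : ℝ) / (2 * q) = 2 * ((L : ℝ) / (4 * q)) := by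
            ring
          rw [e4] at e2
          rw [e5] at e1
          linarith
        have hwt : 0 ≤ wt d j x := by
          unfold wt
          apply Finset.prod_nonneg
          intro i _
          split_ifs <;> positivity
        have h2 : c₁ / (4 * q * C0 F ^ k j) * L ≤
            (HP d j x : ℝ) * ∑ y ∈ Y x, ((ht y : ℝ) ^ (n j - k j))⁻¹ := by
          have e1 : c₁ * ((L : ℝ) / (4 * q)) ≤ (C0 F : ℝ) ^ k j *
              ((HP d j x : ℝ) * ∑ y ∈ Y x, ((ht y : ℝ) ^ (n j - k j))⁻¹) := by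
            calc c₁ * ((L : ℝ) / (4 * q)) ≤
                c₁ * (((L / q : ℕ) : ℝ) - ((L / (2 * q) : ℕ) : ℝ)) := by gcongr
              _ ≤ _ := h1
              _ = _ := by rw [hY]; ring
          have e2 : c₁ / (4 * q * C0 F ^ k j) * L = c₁ * ((L : ℝ) / (4 * q)) / (C0 F : ℝ) ^ k j := by
            field_simp
          rw [e2, div_le_iff₀ (by positivity)]
          linarith
        calc wt d j x * (c₁ / (4 * q * C0 F ^ k j) * L) ≤
            wt d j x * ((HP d j x : ℝ) * ∑ y ∈ Y x, ((ht y : ℝ) ^ (n j - k j))⁻¹) := by gcongr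
          _ = ∑ y ∈ Y x, wt d (j₀ + 1) (Function.update x j y) := by
              rw [Finset.mul_sum, Finset.mul_sum]
              refine Finset.sum_congr rfl fun y _ => ?_
              exact (wt_succ hd0 j x y).symm
      calc c₂ * (c₁ / (4 * q * C0 F ^ k j)) * (L : ℝ) ^ (j₀ + 1) =
          (c₂ * (L : ℝ) ^ j₀) * (c₁ / (4 * q * C0 F ^ k j) * L) := by
            rw [pow_succ]
            ring
        _ ≤ (∑ x ∈ S, wt d j x) * (c₁ / (4 * q * C0 F ^ k j) * L) := by
            gcongr
        _ = ∑ x ∈ S, wt d j x * (c₁ / (4 * q * C0 F ^ k j) * L) := by rw [Finset.sum_mul]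
        _ ≤ _ := Finset.sum_le_sum hterm

end Pool.Agent.T6.H5.TW
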