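import Mathlib
import Pool.Agent.T6.H5.TW.D

/-! Towers of linear sections: the lower bound. -/

set_option autoImplicit false

namespace Pool.Agent.T6.H5.TW

open Finset Matrix
open Pool.Agent.H548.WM (ht bx mem_bx ht_le le_ht le_ht' exists_ht card_bx_le ht_pos Rep)
open Pool.Agent.H548.TL (evz evz_map evz_int deg_evz root)

section
variable {M : ℕ} {n k : Fin M → ℕ}

/-- The points of the tower over which the linear equations of every block are independent and at
which the polynomial `G` does not vanish. -/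
def InV {R : Type*} [CommRing R]
    (F : ∀ j, Fin (k j) → Fin (n j) → MvPolynomial (Σ i, Fin (n i)) ℤ)
    (G : MvPolynomial (Σ i, Fin (n i)) ℤ) (x : ∀ i, Fin (n i) → R) : Prop :=
  (∀ j l, ∑ s, evz (F j l s) (fl x) * x j s = 0) ∧
    (∀ j, LinearIndependent R (fun l s => evz (F j l s) (fl x))) ∧ evz G (fl x) ≠ 0

/-- The rational points in `InV F G` with `∏ H(x_i) ^ (a_i) ≤ B`. -/
def Pts (F : ∀ j, Fin (k j) → Fin (n j) → MvPolynomial (Σ i, Fin (n i)) ℤ)
    (G : MvPolynomial (Σ i, Fin (n i)) ℤ) (a : Fin M → ℕ) (B : ℝ) : Set (∀ i, Fin (n i) → ℤ) :=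
  {x | (∀ i, Rep (x i)) ∧ InV F G x ∧ ∏ i, (ht (x i) : ℝ) ^ a i ≤ B}

theorem finite_pts (F : ∀ j, Fin (k j) → Fin (n j) → MvPolynomial (Σ i, Fin (n i)) ℤ)
    (G : MvPolynomial (Σ i, Fin (n i)) ℤ) {a : Fin M → ℕ} (ha : ∀ i, 1 ≤ a i) (B : ℝ) :
    (Pts F G a B).Finite := by
  classical
  apply ((Fintype.piFinset fun i => bx (n i) ⌊B⌋₊).finite_toSet).subset
  rintro x ⟨h1, -, h2⟩
  rw [mem_coe, Fintype.mem_piFinset]
  intro i
  rw [mem_bx]
  apply Nat.le_floor
  have h3 : ∀ i, (1 : ℝ) ≤ ht (x i) := fun i => by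
    exact_mod_cast ht_pos (Pool.Agent.H548.BL.rep_ne (h1 i))
  have h4 : (ht (x i) : ℝ) ^ a i ≤ ∏ i, (ht (x i) : ℝ) ^ a i := by
    have h5 : ht (x i) ^ a i ≤ ∏ i, ht (x i) ^ a i :=
      Finset.single_le_prod' (f := fun i => ht (x i) ^ a i)
        (fun i _ => Nat.one_le_iff_ne_zero.2 (pow_ne_zero _ (by
          have := h3 i
          intro h0
          rw [h0] at this
          norm_num at this))) (mem_univ i)
    exact_mod_cast h5
  exact (le_self_pow₀ (h3 i) (by have := ha i; omega)).trans (h4.trans h2)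

theorem CM_mulVec {R : Type*} [CommRing R]
    {F : ∀ j, Fin (k j) → Fin (n j) → MvPolynomial (Σ i, Fin (n i)) ℤ} {j : Fin M}
    {x : ∀ i, Fin (n i) → R} {y : Fin (n j) → R} :
    CM F j x *ᵥ y = 0 ↔ ∀ l, ∑ s, evz (F j l s) (fl x) * y s = 0 :=
  ⟨fun h l => congrFun h l, fun h => funext fun l => h l⟩

end

variable {m : ℕ} {n k : Fin (m + 1) → ℕ}

/-- The weights of the prefixes. -/
theorem wt_eq {d : ∀ j, Fin (k j) → Fin (m + 1) → ℕ}
    (hd0 : ∀ (j : Fin (m + 1)) l (i : Fin (m + 1)), (j : ℕ) ≤ i → d j l i = 0)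
    {a : Fin (m + 1) → ℕ} (ha : ∀ i, a i + ∑ j, ∑ l, d j l i + k i = n i)
    (x : ∀ i, Fin (n i) → ℤ) (hx : ∀ i : Fin (m + 1), (i : ℕ) < m → 1 ≤ ht (x i)) :
    wt d m x * ((∏ i : Fin m, (ht (x i.castSucc) : ℝ) ^ a i.castSucc) *
      (HP d (Fin.last m) x : ℝ)) = 1 := by
  have hlast : ∀ j, ∑ l, d j l (Fin.last m) = 0 := fun j =>
    Finset.sum_eq_zero fun l _ => hd0 j l _ (by
      rw [Fin.val_last]
      have := j.2
      omega)
  have hHP : ∀ j, (HP d j x : ℝ) = ∏ i : Fin m, (ht (x i.castSucc) : ℝ) ^ (∑ l, d j l i.castSucc) := by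
    intro j
    unfold HP
    push_cast
    rw [Fin.prod_univ_castSucc, hlast, pow_zero, mul_one]
  unfold wt
  rw [Fin.prod_univ_castSucc]
  have e1 : ∀ i : Fin m, (if ((i.castSucc : Fin (m + 1)) : ℕ) < m then
      ((ht (x i.castSucc) : ℝ) ^ (n i.castSucc - k i.castSucc))⁻¹ * (HP d i.castSucc x : ℝ) else 1) =
      ((ht (x i.castSucc) : ℝ) ^ (n i.castSucc - k i.castSucc))⁻¹ * (HP d i.castSucc x : ℝ) := by
    intro i
    rw [if_pos]
    simp
  rw [Finset.prod_congr rfl fun i _ => e1 i, if_neg (by simp), mul_one, Finset.prod_mul_distrib]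
  have e2 : (∏ i : Fin m, (HP d i.castSucc x : ℝ)) * (HP d (Fin.last m) x : ℝ) =
      ∏ i : Fin m, (ht (x i.castSucc) : ℝ) ^ (∑ j, ∑ l, d j l i.castSucc) := by
    rw [← Fin.prod_univ_castSucc (fun j => (HP d j x : ℝ))]
    rw [Finset.prod_congr rfl fun j _ => hHP j, Finset.prod_comm]
    refine Finset.prod_congr rfl fun i _ => ?_
    rw [Finset.prod_pow_eq_pow_sum]
  calc _ = (∏ i : Fin m, ((ht (x i.castSucc) : ℝ) ^ (n i.castSucc - k i.castSucc))⁻¹) *
        (∏ i : Fin m, (ht (x i.castSucc) : ℝ) ^ a i.castSucc) *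
        ((∏ i : Fin m, (HP d i.castSucc x : ℝ)) * (HP d (Fin.last m) x : ℝ)) := by ring
    _ = ∏ i : Fin m, (1 : ℝ) := by
        rw [e2, ← Finset.prod_mul_distrib, ← Finset.prod_mul_distrib]
        refine Finset.prod_congr rfl fun i _ => ?_
        have h1 : (0 : ℝ) < ht (x i.castSucc) := by
          exact_mod_cast hx i.castSucc (by simp)
        have h2 : n i.castSucc - k i.castSucc = a i.castSucc + ∑ j, ∑ l, d j l i.castSucc := by
          have := ha i.castSucc
          omega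
        rw [h2, mul_assoc, ← pow_add]
        exact inv_mul_cancel₀ (by positivity)
    _ = 1 := Finset.prod_const_one

/-- The lower bound. -/
theorem low (hk : ∀ j, k j + 2 ≤ n j)
    {F : ∀ j, Fin (k j) → Fin (n j) → MvPolynomial (Σ i, Fin (n i)) ℤ}
    {d : ∀ j, Fin (k j) → Fin (m + 1) → ℕ} (hd : ∀ j l s, MultiDeg (F j l s) (d j l))
    (hd0 : ∀ (j : Fin (m + 1)) l (i : Fin (m + 1)), (j : ℕ) ≤ i → d j l i = 0)
    {a : Fin (m + 1) → ℕ} (ha : ∀ i, a i + ∑ j, ∑ l, d j l i + k i = n i) (ha1 : ∀ i, 1 ≤ a i)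
    {G : MvPolynomial (Σ i, Fin (n i)) ℤ} (hG : ∃ z : ∀ i, Fin (n i) → ℂ, InV F G z) :
    ∃ c B₀ : ℝ, 0 < c ∧ ∀ B : ℝ, B₀ ≤ B →
      c * B * Real.log B ^ m ≤ ((Pts F G a B).ncard : ℝ) := by
  classical
  obtain ⟨z, hz0, hzi, hzG⟩ := hG
  have hF : ∀ (j : Fin (m + 1)) l s, Dep (j : ℕ) (F j l s) := fun j l s =>
    dep_of_deg (hd j l s) fun i hi => hd0 j l i hi
  obtain ⟨g, hgM, -, hg0, hg⟩ := chain hF G z (fun j => CM_mulVec.2 (hz0 j)) hzi hzG
  set t : Fin (m + 1) := Fin.last m with htd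
  have htv : (t : ℕ) = m := rfl
  have hat : a t = n t - k t := by
    have h1 := ha t
    have h2 : ∑ j, ∑ l, d j l t = 0 := Finset.sum_eq_zero fun j _ =>
      Finset.sum_eq_zero fun l _ => hd0 j l _ (by
        rw [htv]
        have := j.2
        omega)
    omega
  set e := a t with he
  have he1 : 1 ≤ e := ha1 t
  obtain ⟨c₁, E, M₁, hc₁, hE, hy⟩ := good_y (hk t) G.totalDegree
  set Se := ∑ i, ∑ l, d t l i with hSe
  set Sa := ∑ i, a i with hSa
  set q := 2 * (Se * M₁ * e + Sa + 1) with hq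
  obtain ⟨c₂, L₂, hc₂, hS⟩ := prefixes hk hd hd0 hg0 hg m (Nat.le_succ m) q (by omega)
  have hC0 := C0_pos F
  have hC0' : (0 : ℝ) < C0 F := by exact_mod_cast hC0
  obtain ⟨b, hb⟩ : ∃ b : ℕ, (E * C0 F ^ (k t * M₁)) ^ e ≤ 2 ^ b :=
    ⟨_, (Nat.lt_two_pow_self (n := (E * C0 F ^ (k t * M₁)) ^ e)).le⟩
  set c := c₁ / (2 ^ e * C0 F ^ k t) * (c₂ / 2 ^ m) with hc
  set L₀ := L₂ + 2 * b + 1 with hL₀
  refine ⟨c, 2 ^ L₀ + 1, by positivity, ?_⟩
  intro B hB
  have hp : (1 : ℝ) ≤ 2 ^ L₀ := one_le_pow₀ (by norm_num)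
  have hB1 : 1 ≤ B := by linarith
  have hB0 : 0 < B := by linarith
  set Bn := ⌊B⌋₊ with hBn
  have hBX : (Bn : ℝ) ≤ B := Nat.floor_le (by linarith)
  have hXB : B < Bn + 1 := Nat.lt_floor_add_one B
  have hBn1 : 2 ^ L₀ ≤ Bn := by
    apply Nat.le_floor
    push_cast
    linarith
  have hBn0 : Bn ≠ 0 := by
    have : 0 < 2 ^ L₀ := by positivity
    omega
  set L := Nat.log 2 Bn with hL
  have hLL : L₀ ≤ L := Nat.le_log_of_pow_le (by norm_num) hBn1
  have hLB : (2 : ℝ) ^ L ≤ B := by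
    have : 2 ^ L ≤ Bn := Nat.pow_log_le_self 2 hBn0
    have h2 : ((2 ^ L : ℕ) : ℝ) ≤ Bn := by exact_mod_cast this
    push_cast at h2
    linarith
  have hlogB : Real.log B ≤ 2 * L := by
    have h4 : Bn + 1 ≤ 2 ^ (L + 1) := Nat.lt_pow_succ_log_self (by norm_num) Bn
    have h5 : B ≤ (2 : ℝ) ^ (L + 1) := by
      have : ((Bn : ℝ) + 1) ≤ (2 : ℝ) ^ (L + 1) := by exact_mod_cast h4
      linarith
    have hL1 : (1 : ℝ) ≤ L := by
      have : 1 ≤ L := by omega
      exact_mod_cast this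
    calc Real.log B ≤ Real.log ((2 : ℝ) ^ (L + 1)) := Real.log_le_log (by linarith) h5
      _ = ((L + 1 : ℕ) : ℝ) * Real.log 2 := by rw [Real.log_pow]
      _ ≤ ((L + 1 : ℕ) : ℝ) * 1 := by
          gcongr
          have := Real.log_two_lt_d9
          linarith
      _ ≤ 2 * L := by
          push_cast
          linarith
  have hlog0 : 0 ≤ Real.log B := Real.log_nonneg hB1
  obtain ⟨S, hS1, hS2⟩ := hS L (by omega)
  set DD : (∀ i, Fin (n i) → ℤ) → ℕ := fun x =>
    ∏ i : Fin m, ht (x i.castSucc) ^ a i.castSucc with hDD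
  have hh : ∀ x ∈ S, ∀ i : Fin (m + 1), (i : ℕ) < m → 1 ≤ ht (x i) := fun x hx i hi =>
    ht_pos (Pool.Agent.H548.BL.rep_ne ((hS1 x hx).1.1 i hi).1)
  have hDD1 : ∀ x ∈ S, 1 ≤ DD x := fun x hx => by
    rw [hDD]
    refine Nat.succ_le_of_lt (Finset.prod_pos fun i _ => ?_)
    exact pow_pos (hh x hx i.castSucc (by simp)) _
  have hW1 : ∀ x ∈ S, ∀ l, 1 ≤ WW F d t x l := by
    intro x hx l
    unfold WW
    apply Nat.mul_pos hC0
    apply Finset.prod_pos
    intro i _
    by_cases hi : (i : ℕ) < m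
    · exact pow_pos (hh x hx i hi) _
    · rw [hd0 t l i (by omega), pow_zero]
      norm_num
  have hHP1 : ∀ x ∈ S, 1 ≤ HP d t x := by
    intro x hx
    unfold HP
    refine Nat.succ_le_of_lt (Finset.prod_pos fun i _ => ?_)
    by_cases hi : (i : ℕ) < m
    · exact pow_pos (hh x hx i hi) _
    · rw [Finset.sum_eq_zero fun l _ => hd0 t l i (by omega), pow_zero]
      norm_num
  -- the scales of the last block
  have hZ : ∀ x ∈ S, ∃ Z : ℕ, E * (∏ l, WW F d t x l) ^ M₁ ≤ Z ∧ (Z : ℝ) ^ e ≤ B / DD x ∧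
      B / DD x ≤ 2 ^ e * (Z : ℝ) ^ e := by
    intro x hx
    have hD0 : (0 : ℝ) < DD x := by exact_mod_cast hDD1 x hx
    have g4 := (hS1 x hx).2
    have hHP : HP d t x ≤ 2 ^ (L / q * Se) := by
      unfold HP
      calc ∏ i, ht (x i) ^ (∑ l, d t l i) ≤ ∏ i, (2 ^ (L / q)) ^ (∑ l, d t l i) :=
            Finset.prod_le_prod' fun i _ => Nat.pow_le_pow_left (g4 i) _
        _ = 2 ^ (L / q * Se) := by
            rw [Finset.prod_pow_eq_pow_sum, ← pow_mul]
    have hDle : DD x ≤ 2 ^ (L / q * Sa) := by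
      rw [hDD]
      calc ∏ i : Fin m, ht (x i.castSucc) ^ a i.castSucc ≤
          ∏ i : Fin m, (2 ^ (L / q)) ^ a i.castSucc :=
            Finset.prod_le_prod' fun i _ => Nat.pow_le_pow_left (g4 _) _
        _ = 2 ^ (L / q * ∑ i : Fin m, a i.castSucc) := by
            rw [Finset.prod_pow_eq_pow_sum, ← pow_mul]
        _ ≤ 2 ^ (L / q * Sa) := by
            apply Nat.pow_le_pow_right (by norm_num)
            apply Nat.mul_le_mul_left
            rw [hSa, Fin.sum_univ_castSucc]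
            omega
    have hnat : (E * (∏ l, WW F d t x l) ^ M₁) ^ e * DD x ≤ 2 ^ L := by
      rw [prod_WW]
      have h1 : L / q * Se * (M₁ * e) + L / q * Sa ≤ L / 2 := by
        rw [Nat.le_div_iff_mul_le (by norm_num)]
        calc (L / q * Se * (M₁ * e) + L / q * Sa) * 2 = L / q * (2 * (Se * M₁ * e + Sa)) := by ring
          _ ≤ L / q * q := by
              apply Nat.mul_le_mul_left
              rw [hq]
              omega
          _ ≤ L := Nat.div_mul_le_self L q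
      calc (E * (C0 F ^ k t * HP d t x) ^ M₁) ^ e * DD x
          = (E * C0 F ^ (k t * M₁)) ^ e * (HP d t x) ^ (M₁ * e) * DD x := by
            rw [mul_pow (C0 F ^ k t), ← pow_mul, ← mul_assoc, mul_pow _ (HP d t x ^ M₁), ← pow_mul]
        _ ≤ 2 ^ b * (2 ^ (L / q * Se)) ^ (M₁ * e) * 2 ^ (L / q * Sa) :=
            Nat.mul_le_mul (Nat.mul_le_mul hb (Nat.pow_le_pow_left hHP _)) hDle
        _ = 2 ^ (b + (L / q * Se * (M₁ * e) + L / q * Sa)) := by
            rw [← pow_mul, ← pow_add, ← pow_add, add_assoc]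
        _ ≤ 2 ^ L := Nat.pow_le_pow_right (by norm_num) (by omega)
    have hq' : ((E * (∏ l, WW F d t x l) ^ M₁ : ℕ) : ℝ) ^ e ≤ B / DD x := by
      rw [le_div_iff₀ hD0]
      refine le_trans ?_ hLB
      exact_mod_cast hnat
    have hW := hW1 x hx
    have hWp : 1 ≤ ∏ l, WW F d t x l := Finset.one_le_prod' fun l _ => hW l
    exact root (B / DD x) e _ he1 (Nat.one_le_iff_ne_zero.2 (by positivity)) hq'
  choose! Z hZ1 hZ2 hZ3 using hZ
  set Y : (∀ i, Fin (n i) → ℤ) → Finset (Fin (n t) → ℤ) := fun x =>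
    YS (CM F t x) (slice G t x) (Z x) with hY
  have hmemY : ∀ x y, y ∈ Y x ↔ ht y ≤ Z x ∧ Rep y ∧ CM F t x *ᵥ y = 0 ∧
      evz G (fl (Function.update x t y)) ≠ 0 := by
    intro x y
    rw [hY]
    simp only
    rw [mem_YS, evz_slice]
  have hinj : Set.InjOn (fun p : (Σ _ : (∀ i, Fin (n i) → ℤ), Fin (n t) → ℤ) =>
      Function.update p.1 t p.2) (S.sigma Y : Set _) := by
    rintro ⟨x, y⟩ hx ⟨x', y'⟩ hx' heq
    rw [mem_coe, mem_sigma] at hx hx'
    have h0 := (hS1 x hx.1).1.2.2 t le_rfl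
    have h0' := (hS1 x' hx'.1).1.2.2 t le_rfl
    simp only at heq
    have e1 : x = x' := by
      funext i
      by_cases hij : i = t
      · subst hij
        rw [h0, h0']
      · have := congrFun heq i
        rwa [Function.update_of_ne hij, Function.update_of_ne hij] at this
    subst e1
    have e2 := congrFun heq t
    rw [Function.update_self, Function.update_self] at e2
    rw [e2]
  set P := (S.sigma Y).image fun p => Function.update p.1 t p.2 with hP
  have hPsub : (↑P : Set _) ⊆ Pts F G a B := by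
    intro x' hx'
    rw [mem_coe, hP, mem_image] at hx'
    obtain ⟨⟨x, y⟩, hxy, rfl⟩ := hx'
    rw [mem_sigma] at hxy
    obtain ⟨hx, hyy⟩ := hxy
    simp only at hx hyy
    rw [hmemY] at hyy
    obtain ⟨⟨g1, g2, g3⟩, g4⟩ := hS1 x hx
    have hCi : ∀ i, CM F i (Function.update x t y) = CM F i x := by
      intro i
      apply CM_congr hF
      intro i' hi'
      rw [Function.update_of_ne]
      intro h
      rw [h, htv] at hi'
      have := i.2
      omega
    have hall : ∀ i : Fin (m + 1), Rep (Function.update x t y i) ∧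
        CM F i (Function.update x t y) *ᵥ (Function.update x t y i) = 0 ∧
        LinearIndependent ℤ (CM F i (Function.update x t y)).row := by
      intro i
      rw [hCi]
      by_cases hij : i = t
      · subst hij
        rw [Function.update_self]
        exact ⟨hyy.2.1, hyy.2.2.1, (hg _ x g2).1⟩
      · have hij' : (i : ℕ) ≠ m := fun h => hij (Fin.ext h)
        rw [Function.update_of_ne hij]
        exact g1 i (by have := i.2; omega)
    refine ⟨fun i => (hall i).1, ⟨fun j => CM_mulVec.1 (hall j).2.1, fun j => (hall j).2.2,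
      hyy.2.2.2⟩, ?_⟩
    rw [Fin.prod_univ_castSucc]
    have hD0 : (0 : ℝ) < DD x := by exact_mod_cast hDD1 x hx
    have h1 : ∏ i : Fin m, (ht (Function.update x t y i.castSucc) : ℝ) ^ a i.castSucc = DD x := by
      rw [hDD]
      push_cast
      refine Finset.prod_congr rfl fun i _ => ?_
      rw [Function.update_of_ne (by
        intro h
        have := congrArg Fin.val h
        rw [htv] at this
        simp at this
        have := i.2
        omega)]
    rw [h1]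
    show (DD x : ℝ) * (ht (Function.update x t y t) : ℝ) ^ e ≤ B
    rw [Function.update_self]
    have h2 := hZ2 x hx
    rw [le_div_iff₀ hD0] at h2
    calc (DD x : ℝ) * (ht y : ℝ) ^ e ≤ (DD x : ℝ) * (Z x : ℝ) ^ e := by
          have : (ht y : ℝ) ≤ Z x := by exact_mod_cast hyy.1
          gcongr
      _ ≤ B := by linarith
  have h5 := Set.ncard_le_ncard hPsub (finite_pts F G ha1 B)
  rw [Set.ncard_coe_finset, hP, Finset.card_image_of_injOn hinj, Finset.card_sigma] at h5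
  have hterm : ∀ x ∈ S, c₁ / (2 ^ e * C0 F ^ k t) * (B * wt d m x) ≤ ((Y x).card : ℝ) := by
    intro x hx
    obtain ⟨⟨g1, g2, g3⟩, g4⟩ := hS1 x hx
    obtain ⟨hli, y0, hy0, hy1⟩ := hg t x g2
    rw [htv, hgM] at hy1
    have h1 := hy (CM F t x) hli (slice G t x) (deg_slice _ _ _)
      ⟨y0, hy0, by rw [evz_slice]; exact hy1⟩ (WW F d t x) (Z x) (hW1 x hx)
      (CM_le hd t x) (hZ1 x hx)
    have hprod : (∏ l, (WW F d t x l : ℝ)) = (C0 F : ℝ) ^ k t * HP d t x := by
      have := prod_WW F d t x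
      exact_mod_cast this
    rw [hprod, ← hat] at h1
    have hD0 : (0 : ℝ) < DD x := by exact_mod_cast hDD1 x hx
    have hH0 : (0 : ℝ) < HP d t x := by exact_mod_cast hHP1 x hx
    have hwt : wt d m x = 1 / (DD x * HP d t x) := by
      rw [eq_div_iff (by positivity)]
      have := wt_eq hd0 ha x (hh x hx)
      rw [hDD]
      push_cast
      exact this
    rw [hwt]
    have h2 := hZ3 x hx
    have h3 : B / DD x * c₁ ≤ 2 ^ e * ((C0 F : ℝ) ^ k t * HP d t x * (Y x).card) := by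
      calc B / DD x * c₁ ≤ (2 ^ e * (Z x : ℝ) ^ e) * c₁ := by gcongr
        _ = 2 ^ e * (c₁ * (Z x : ℝ) ^ e) := by ring
        _ ≤ _ := by gcongr
    have h4 : c₁ / (2 ^ e * C0 F ^ k t) * (B * (1 / (DD x * HP d t x))) =
        (B / DD x * c₁) / (2 ^ e * ((C0 F : ℝ) ^ k t * HP d t x)) := by
      field_simp
    rw [h4, div_le_iff₀ (by positivity)]
    calc _ ≤ _ := h3
      _ = _ := by ring
  calc c * B * Real.log B ^ m ≤ c * B * (2 * (L : ℝ)) ^ m := by gcongr
    _ = c₁ / (2 ^ e * C0 F ^ k t) * B * (c₂ * (L : ℝ) ^ m) := by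
        rw [hc, mul_pow]
        field_simp
    _ ≤ c₁ / (2 ^ e * C0 F ^ k t) * B * ∑ x ∈ S, wt d m x := by gcongr
    _ = ∑ x ∈ S, c₁ / (2 ^ e * C0 F ^ k t) * (B * wt d m x) := by
        rw [Finset.mul_sum]
        refine Finset.sum_congr rfl fun x _ => ?_
        ring
    _ ≤ ∑ x ∈ S, ((Y x).card : ℝ) := Finset.sum_le_sum hterm
    _ ≤ _ := by exact_mod_cast h5

end Pool.Agent.T6.H5.TW
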