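import Mathlib
import Pool.Agent.T6.H5.TW.E

/-!
# Towers of linear sections of products of projective spaces

The number of rational points of bounded anticanonical height, over the rational numbers, on the
complete intersections `X` in `ℙ^(n_0 - 1) × ⋯ × ℙ^(n_m - 1)` which are given, for every `j ≤ m`, by
`k_j` equations that are linear in the block `x_j` of the variables, with coefficients which are
multihomogeneous polynomials (of arbitrary degrees) in the blocks `x_0, …, x_(j-1)`: the conjectured
order of magnitude `B (log B) ^ m` is a lower bound on every dense open subset.

* `F j l s`: the coefficient of the coordinate `s` of `x_j` in the equation number `l < k_j` of the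
  block `j`. `MultiDeg (F j l s) (d j l)`: it is homogeneous of degree `d j l i` in the variables of
  the block `i`, for every `i`; `d j l i = 0` for `i ≥ j`. So the equations have the multidegrees
  `(d j l 0, …, d j l (j - 1), 1, 0, …, 0)`.
* `evz p (fl x)` is the value of `p` at the point `x = (x_0, …, x_m)`.
* `InV F G x`: the point `x` satisfies all the equations, for every `j` the `k_j` linear forms in
  `x_j` are linearly independent at `x`, and the polynomial `G` does not vanish at `x`. Here `G` is
  an arbitrary polynomial in all the coordinates.
* `a i = n_i - k_i - ∑ d j l i` (sum over all equations): if `X` is a smooth complete intersection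
  then its anticanonical class is `∑ a_i H_i`.
* `Rep v`: `v` is the normalised primitive integer representative of a rational point of a
  projective space (greatest common divisor of the coordinates `1`, first nonzero coordinate
  positive); `ht v` is its height, the maximum of the absolute values of the coordinates.
* `Pts F G a B`: the rational points in `InV F G` with `∏ H(x_i) ^ (a_i) ≤ B`.

The theorem: let `k_j + 2 ≤ n_j` and `a_j ≥ 1` for all `j`. The sets `Pts F G a B` are finite, and if
there is a complex point in `InV F G`, then `Pts F G a B` has at least `c B (log B) ^ m` elements for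
all large `B`.

Examples: divisors of type `(1, …, 1)` in products of any number of projective spaces, complete
intersections of divisors of types `(d_0, …, d_(m-1), 1)`, and iterated constructions.
The starting results of this problem contain the cases `m = 1` with all degrees equal, the divisors
of type `(1,1,1)`, and bilinear equations along the edges of a graph with rank conditions.

Method. Elimination of the last block gives polynomials `g_j` in the first `j` blocks such that
`g_(j+1)` does not vanish identically on the fibre over a point where `g_j` does not vanish. The
vectors of height at most `T` in the fibre lattice are at least `c T ^ (n_j - k_j) / ∏ W_l`, with the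
bounds `W_l` of the coefficients, if `T` is at least a power of the `W_l`. Partial summation gives a
factor `log B` for every block but the last one, and the last block gives the factor `B`.
-/

set_option autoImplicit false

namespace Pool.Agent.Results.MP_1acd66_nt.TowersOfLinearSections

open Pool.Agent.T6.H5.TW

theorem result {m : ℕ} {n k : Fin (m + 1) → ℕ} (hk : ∀ j, k j + 2 ≤ n j)
    (F : ∀ j, Fin (k j) → Fin (n j) → MvPolynomial (Σ i, Fin (n i)) ℤ)
    (d : ∀ j, Fin (k j) → Fin (m + 1) → ℕ)
    (hd : ∀ j l s, MultiDeg (F j l s) (d j l))
    (hd0 : ∀ (j : Fin (m + 1)) (l : Fin (k j)) (i : Fin (m + 1)), (j : ℕ) ≤ i → d j l i = 0)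
    (a : Fin (m + 1) → ℕ) (ha : ∀ i, a i + ∑ j, ∑ l, d j l i + k i = n i) (ha1 : ∀ i, 1 ≤ a i)
    (G : MvPolynomial (Σ i, Fin (n i)) ℤ) :
    (∀ B : ℝ, (Pts F G a B).Finite) ∧
    ((∃ z : ∀ i, Fin (n i) → ℂ, InV F G z) →
      ∃ c B₀ : ℝ, 0 < c ∧ ∀ B : ℝ, B₀ ≤ B →
        c * B * Real.log B ^ m ≤ ((Pts F G a B).ncard : ℝ)) :=
  ⟨finite_pts F G ha1, low hk hd hd0 ha ha1⟩

end Pool.Agent.Results.MP_1acd66_nt.TowersOfLinearSections
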